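import Pool.Agent.W354.MS.Total
import Pool.Agent.H385R5.HE8a
import Pool.Agent.W354.PK.SqK

set_option autoImplicit false

/-!
From the full prime sum to the short prime sum, and the mean square of the full prime sum.
-/

open Complex Filter Topology Set MeasureTheory

namespace Pool.Agent.W354.MS

open H385 hiding ee ee_norm ee_add SS
open H385.Cut
open Pool.Agent.W354.LS
open Pool.Agent.H304R3.HK (tc LamK bb)
open Pool.Agent.H304R3.HK.M4 (bb_eq mem_T)
open Pool.Agent.W354.PK (psik aK HCk)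

theorem point (ψ : ZI → ℂ) (hψ : ∀ a, ‖ψ a‖ ≤ 1) (N : ℕ) (T' u t : ℝ) (hT : 0 ≤ T') :
    ‖∑' n : ℕ, bb (fun a => (LamK a : ℂ) * ψ a) n * bn T' u t n -
      (1 / 4 : ℂ) * ∑ a ∈ BX N, (LamK a : ℂ) * ψ a * bn T' u t (nrm a)‖ ≤
      wt T' t * (2 * Tl N u) := by
  classical
  set b := bn T' u t with hb
  set A : ℕ → ℂ := bb (fun a => (LamK a : ℂ) * ψ a) with hA
  have haH : ∀ n, ‖A n * b n‖ ≤ 2 * (ArithmeticFunction.vonMangoldt n * ‖b n‖) := by
    intro n
    have h1 : ‖A n‖ ≤ 2 * (ArithmeticFunction.vonMangoldt n * 1) := by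
      rw [hA]
      refine HE5.bb_le _ n 1 (by norm_num) ?_
      intro a _
      rw [norm_mul, Complex.norm_real, Real.norm_of_nonneg (HE5.LamK_nn a)]
      exact mul_le_mul_of_nonneg_left (hψ a) (HE5.LamK_nn a)
    rw [norm_mul]
    calc ‖A n‖ * ‖b n‖ ≤ (2 * (ArithmeticFunction.vonMangoldt n * 1)) * ‖b n‖ :=
          mul_le_mul_of_nonneg_right h1 (norm_nonneg _)
      _ = _ := by ring
  have hsb : Summable (fun n : ℕ => ArithmeticFunction.vonMangoldt n * ‖b n‖) :=
    b_summable T' u t hT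
  have hsc : Summable (fun n : ℕ => A n * b n) :=
    Summable.of_norm_bounded (hsb.mul_left 2) haH
  -- the short sum as a sum over `n`
  set s : ℕ → ℂ := fun n => if n ∈ Finset.Icc 1 N then A n * b n else 0 with hs
  have hS : (1 / 4 : ℂ) * ∑ a ∈ BX N, (LamK a : ℂ) * ψ a * b (nrm a) = ∑' n, s n := by
    rw [HE5.sum_BX, tsum_eq_sum (s := Finset.Icc 1 N)]
    · apply Finset.sum_congr rfl
      intro n hn
      rw [hs]
      simp only
      rw [if_pos hn, hA, bb_eq, bb_eq, mul_assoc, Finset.sum_mul]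
      congr 1
      apply Finset.sum_congr rfl
      intro a ha
      have hna : nrm a = n := HE5.nrm_eq.2 (mem_T.1 ha)
      rw [hna]
    · intro n hn
      rw [hs]
      simp only
      rw [if_neg hn]
  have hss : Summable s := summable_of_ne_finset_zero (s := Finset.Icc 1 N) (by
    intro n hn
    rw [hs]
    simp only
    rw [if_neg hn])
  rw [hS, ← hsc.tsum_sub hss]
  set B2 : ℕ → ℝ := fun n => if N < n then
    ArithmeticFunction.vonMangoldt n * ‖b n‖ else 0 with hB2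
  have hpos : ∀ n, 0 ≤ ArithmeticFunction.vonMangoldt n * ‖b n‖ := fun n =>
    mul_nonneg ArithmeticFunction.vonMangoldt_nonneg (norm_nonneg _)
  have hB2n : ∀ n, 0 ≤ B2 n := by
    intro n; rw [hB2]; simp only; split_ifs
    · exact hpos n
    · exact le_rfl
  have hB2s : Summable B2 := by
    refine Summable.of_nonneg_of_le hB2n (fun n => ?_) hsb
    rw [hB2]; simp only; split_ifs
    · exact le_rfl
    · exact hpos n
  have hd : ∀ n, ‖A n * b n - s n‖ ≤ 2 * B2 n := by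
    intro n
    by_cases hn : n ∈ Finset.Icc 1 N
    · have e1 : s n = A n * b n := by
        rw [hs]; simp only; rw [if_pos hn]
      rw [e1, sub_self, norm_zero]
      have := hB2n n
      positivity
    · have e1 : s n = 0 := by
        rw [hs]; simp only; rw [if_neg hn]
      rw [e1, sub_zero]
      by_cases hn0 : n = 0
      · subst hn0
        have h1 := haH 0
        have h2 : ArithmeticFunction.vonMangoldt 0 = 0 := by simp
        rw [h2, zero_mul, mul_zero] at h1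
        have := hB2n 0
        linarith
      · have hNn : N < n := by
          rw [Finset.mem_Icc] at hn
          omega
        have h2 : B2 n = ArithmeticFunction.vonMangoldt n * ‖b n‖ := by
          rw [hB2]; simp only; rw [if_pos hNn]
        rw [h2]
        exact haH n
  have hfin : ‖∑' n, (A n * b n - s n)‖ ≤ ∑' n, 2 * B2 n :=
    tsum_of_norm_bounded (hB2s.mul_left 2).hasSum hd
  refine hfin.trans ?_
  rw [tsum_mul_left]
  have k2 : ∑' n, B2 n ≤ wt T' t * Tl N u := b_tsum_le T' u t hT (fun n => N < n)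
  linarith

theorem HCk_shift {r : ℕ} {q : ZI} {χ : ZI →* ℂ} (H : HCk r q χ) (j : ℕ) :
    HCk (r + 4 * j) q χ where
  q0 := H.q0
  per := H.per
  supp := H.supp
  nrm := H.nrm
  unit := by
    rw [H.unit, pow_add, pow_mul]
    have : (-I : ℂ) ^ 4 = 1 := by
      rw [neg_pow, I_pow_four]
      norm_num
    rw [this, one_pow, mul_one]
  prim := H.prim

/-- mean square of the full prime sum -/
theorem ms_int : ∃ C : ℝ, 0 < C ∧ ∀ (r : ℕ) (q : ZI) (χ : ZI →* ℂ) (_ : HCk r q χ) (N : ℕ)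
    (T u κ ε δ : ℝ) (J : ℕ), 1 ≤ N → 0 < ε → ε ≤ 1 / 4 → 1 ≤ κ → 10 * Real.sqrt N ≤ ε * κ →
    κ ≤ ε * J → 1 ≤ T → κ ≤ ε * T → 4 * (N : ℝ) ^ 4 * Real.exp (-κ ^ 2 / 2) ≤ ε ^ 2 → 0 ≤ u →
    0 < δ → Tl N u ≤ 1 → 1 ≤ J →
    ∫ t : ℝ, ∑ j ∈ Finset.range J, (1 / (J : ℝ)) * ‖∑' n : ℕ, aK (r + 4 * j) χ n *
      ((Real.sqrt n : ℂ)⁻¹ * bt T u t (Real.log n))‖ ^ 2 ≤ YH cK δ C 1 T (ε * T) u := by
  obtain ⟨C1, hC1, h1⟩ := short_total
  obtain ⟨C2, hC2, h2⟩ := wt_sq_int
  refine ⟨C1 + C2, by positivity, ?_⟩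
  intro r q χ H N T u κ ε δ J hN hε hε1 hκ g1 g2 hT g3 g4 hu hδ hTl hJ
  have hT0 : 0 ≤ T := by linarith
  have hJ0 : (0 : ℝ) < J := by exact_mod_cast hJ
  have ht := h1 r q χ H r N T u κ ε J hN hε hε1 hκ g1 g2 hT g3 g4 hu
  obtain ⟨b1, b2⟩ := h2 T hT0
  have hpt : ∀ (j : ℕ) (t : ℝ), ‖∑' n : ℕ, aK (r + 4 * j) χ n *
      ((Real.sqrt n : ℂ)⁻¹ * bt T u t (Real.log n))‖ ^ 2 ≤
      (1 + δ) * ‖Sh r χ N T u j t‖ ^ 2 + (1 + 1 / δ) * (4 * wt T t ^ 2) := by
    intro j t
    have hψ : ∀ a, ‖psik (r + 4 * j) χ a‖ ≤ 1 :=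
      (Pool.Agent.W354.PK.uh_psik (HCk_shift H j)).hb
    have e1 := point (fun a => psik (r + 4 * j) χ a) hψ N T u t hT0
    have e2 : ∑' n : ℕ, aK (r + 4 * j) χ n * ((Real.sqrt n : ℂ)⁻¹ * bt T u t (Real.log n)) =
        ∑' n : ℕ, bb (fun a => (LamK a : ℂ) * psik (r + 4 * j) χ a) n * bn T u t n := rfl
    have e3 : Sh r χ N T u j t = (1 / 4 : ℂ) * ∑ a ∈ BX N, (LamK a : ℂ) *
        psik (r + 4 * j) χ a * bn T u t (nrm a) := rfl
    rw [← e2, ← e3] at e1
    set R := ∑' n : ℕ, aK (r + 4 * j) χ n * ((Real.sqrt n : ℂ)⁻¹ * bt T u t (Real.log n)) with hR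
    set S := Sh r χ N T u j t with hS
    have hw := wt_nonneg T t hT0
    have e4 : ‖R - S‖ ≤ 2 * wt T t := by
      refine e1.trans ?_
      calc wt T t * (2 * Tl N u) ≤ wt T t * (2 * 1) := by gcongr
        _ = _ := by ring
    have e5 : ‖R - S‖ ^ 2 ≤ 4 * wt T t ^ 2 := by
      refine (pow_le_pow_left₀ (norm_nonneg _) e4 2).trans (le_of_eq ?_)
      ring
    have e6 : R = S + (R - S) := by ring
    rw [e6]
    refine (FamLS.sq_add_le S (R - S) δ hδ).trans ?_
    have h5 : 0 ≤ 1 + 1 / δ := by positivity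
    have h6 := mul_le_mul_of_nonneg_left e5 h5
    linarith
  have hSi := fun j => Sh_integrable H r N T u hT0 j
  calc ∫ t : ℝ, ∑ j ∈ Finset.range J, (1 / (J : ℝ)) * ‖∑' n : ℕ, aK (r + 4 * j) χ n *
      ((Real.sqrt n : ℂ)⁻¹ * bt T u t (Real.log n))‖ ^ 2 ≤
      ∫ t : ℝ, ∑ j ∈ Finset.range J, (1 / (J : ℝ)) * ((1 + δ) * ‖Sh r χ N T u j t‖ ^ 2 +
        (1 + 1 / δ) * (4 * wt T t ^ 2)) := by
        refine integral_mono_of_nonneg ?_ ?_ ?_
        · exact Filter.Eventually.of_forall (fun t => Finset.sum_nonneg fun j _ => by positivity)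
        · exact integrable_finsetSum _ fun j _ =>
            ((((hSi j).const_mul _).add ((b1.const_mul _).const_mul _)).const_mul _)
        · exact Filter.Eventually.of_forall (fun t => Finset.sum_le_sum fun j _ =>
            mul_le_mul_of_nonneg_left (hpt j t) (by positivity))
    _ = (1 + δ) * ((1 / (J : ℝ)) * ∑ j ∈ Finset.range J, ∫ t : ℝ, ‖Sh r χ N T u j t‖ ^ 2) +
        (1 + 1 / δ) * (4 * ∫ t : ℝ, wt T t ^ 2) := by
        have k1 : ∀ j, Integrable (fun t => (1 + δ) * ‖Sh r χ N T u j t‖ ^ 2) := fun j =>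
          (hSi j).const_mul _
        have k2 : Integrable (fun t => (1 + 1 / δ) * (4 * wt T t ^ 2)) :=
          (b1.const_mul _).const_mul _
        have k0 : ∀ j, Integrable (fun t => (1 / (J : ℝ)) * ((1 + δ) *
            ‖Sh r χ N T u j t‖ ^ 2 + (1 + 1 / δ) * (4 * wt T t ^ 2))) := fun j =>
          ((k1 j).add k2).const_mul _
        rw [integral_finsetSum _ fun j _ => k0 j]
        have k3 : ∀ j ∈ Finset.range J, ∫ t : ℝ, (1 / (J : ℝ)) * ((1 + δ) *
            ‖Sh r χ N T u j t‖ ^ 2 + (1 + 1 / δ) * (4 * wt T t ^ 2)) =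
            (1 / (J : ℝ)) * ((1 + δ) * (∫ t : ℝ, ‖Sh r χ N T u j t‖ ^ 2) +
              (1 + 1 / δ) * (4 * ∫ t : ℝ, wt T t ^ 2)) := by
          intro j _
          rw [integral_const_mul, integral_add (k1 j) k2, integral_const_mul, integral_const_mul,
            integral_const_mul]
        rw [Finset.sum_congr rfl k3, ← Finset.mul_sum, Finset.sum_add_distrib, ← Finset.mul_sum,
          Finset.sum_const, Finset.card_range, nsmul_eq_mul]
        field_simp
    _ ≤ (1 + δ) * (T / (2 * Real.pi) * SW cK u + C1 * (ε * T) * (u + 1)) +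
        (1 + 1 / δ) * (4 * (T + C2)) := by
        have k4 : (1 / (J : ℝ)) * ∑ j ∈ Finset.range J, ∫ t : ℝ, ‖Sh r χ N T u j t‖ ^ 2 ≤
            T / (2 * Real.pi) * SW cK u + C1 * (ε * T) * (u + 1) := by
          rw [one_div, inv_mul_le_iff₀ hJ0]
          exact ht
        gcongr
    _ ≤ _ := by
        unfold YH
        have hG := Gq_nonneg 1 u
        have k5 : C1 * (ε * T) * (u + 1) ≤ (C1 + C2) * (ε * T) * (u + 1) := by
          have : 0 ≤ ε * T := by positivity
          gcongr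
          linarith
        have k6 : 4 * (T + C2) ≤ (T + (C1 + C2)) * (4 * (Gq 1 u + 1) ^ 2) := by
          have k7 : 1 ≤ (Gq 1 u + 1) ^ 2 := by nlinarith
          have k8 : 0 ≤ T + (C1 + C2) := by positivity
          nlinarith
        have e4 : 0 ≤ 1 + δ := by positivity
        have e5 : 0 ≤ 1 + 1 / δ := by positivity
        refine add_le_add (mul_le_mul_of_nonneg_left (by linarith) e4)
          (mul_le_mul_of_nonneg_left k6 e5)

end Pool.Agent.W354.MS
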