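import Pool.Agent.H385R2.CutB
import Pool.Agent.W354.LS.Main

set_option autoImplicit false

/-!
The coefficient functions `bt` in the middle of `[T, 2T]` and far away from `[T, 2T]`.
-/

open Complex Filter Topology Set MeasureTheory

namespace Pool.Agent.W354.MS

open H385 hiding ee
open H385.Cut
open Pool.Agent.W354.LS

theorem full_val (u t ℓ : ℝ) : ∫ τ : ℝ,
    (Real.exp (-(t - τ) ^ 2 / 4) : ℂ) * cexp (I * ((t + τ) / 2) * (u - ℓ)) =
    ((2 * Real.sqrt Real.pi * Real.exp (-(u - ℓ) ^ 2 / 4) : ℝ) : ℂ) * ee (t * (u - ℓ)) := by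
  have h1 : ∫ τ : ℝ, (Real.exp (-(t - τ) ^ 2 / 4) : ℂ) * cexp (I * ((t + τ) / 2) * (u - ℓ)) =
      ∫ τ : ℝ, cexp ((t * (u - ℓ) : ℝ) * I) * (Real.exp (-(u - ℓ) ^ 2 / 4) : ℂ) *
        cexp (-(1 / 4 : ℂ) * (((τ - t : ℝ) : ℂ) + ((-(u - ℓ) : ℝ) : ℂ) * I) ^ 2) := by
    congr 1
    ext τ
    rw [Complex.ofReal_exp, Complex.ofReal_exp, ← Complex.exp_add, ← Complex.exp_add,
      ← Complex.exp_add]
    congr 1
    push_cast
    have hI : (I : ℂ) ^ 2 = -1 := I_sq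
    ring_nf
    rw [hI]
    ring
  rw [h1, integral_const_mul, integral_sub_right_eq_self
    (fun s : ℝ => cexp (-(1 / 4 : ℂ) * ((s : ℂ) + ((-(u - ℓ) : ℝ) : ℂ) * I) ^ 2)) t,
    GaussianFourier.integral_cexp_neg_mul_sq_add_real_mul_I (by norm_num)]
  have h2 : (Real.pi / (1 / 4) : ℂ) ^ (1 / 2 : ℂ) = ((2 * Real.sqrt Real.pi : ℝ) : ℂ) := by
    rw [← sqrt_pi_quarter, Real.sqrt_eq_rpow, Complex.ofReal_cpow (by positivity)]
    push_cast
    norm_num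
  rw [h2]
  unfold ee
  push_cast
  ring

/-- in the middle of the interval -/
theorem JJ_near (T u t ℓ κ : ℝ) (hκ : 0 ≤ κ) (h1 : T + κ ≤ t) (h2 : t ≤ 2 * T - κ) :
    ‖JJ T u t ℓ - ((2 * Real.sqrt Real.pi * Real.exp (-(u - ℓ) ^ 2 / 4) : ℝ) : ℂ) *
      ee (t * (u - ℓ))‖ ≤ 2 * Real.sqrt Real.pi * Real.exp (-κ ^ 2 / 4) := by
  have hJ : JJ T u t ℓ = (∫ τ : ℝ,
      (Real.exp (-(t - τ) ^ 2 / 4) : ℂ) * cexp (I * ((t + τ) / 2) * (u - ℓ))) -
      (∫ τ : ℝ in Iic T,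
      (Real.exp (-(t - τ) ^ 2 / 4) : ℂ) * cexp (I * ((t + τ) / 2) * (u - ℓ))) -
      (∫ τ : ℝ in Ioi (2 * T),
      (Real.exp (-(t - τ) ^ 2 / 4) : ℂ) * cexp (I * ((t + τ) / 2) * (u - ℓ))) :=
    split3 (bt_int_integrable u t ℓ)
  have hs := sqrt_pi_pos
  have e1 : ‖∫ τ : ℝ in Iic T,
      (Real.exp (-(t - τ) ^ 2 / 4) : ℂ) * cexp (I * ((t + τ) / 2) * (u - ℓ))‖ ≤
        Real.sqrt Real.pi * Real.exp (-κ ^ 2 / 4) := by
    refine (norm_integral_le_integral_norm _).trans ?_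
    simp only [bt_int_norm]
    have := tail_Iic hq (t := t) (a := T) (by linarith)
    rw [sqrt_pi_quarter] at this
    refine this.trans ?_
    have e : 2 * Real.sqrt Real.pi / 2 = Real.sqrt Real.pi := by ring
    rw [e]
    apply mul_le_mul_of_nonneg_left _ hs.le
    apply Real.exp_le_exp.2
    nlinarith
  have e2 : ‖∫ τ : ℝ in Ioi (2 * T),
      (Real.exp (-(t - τ) ^ 2 / 4) : ℂ) * cexp (I * ((t + τ) / 2) * (u - ℓ))‖ ≤
        Real.sqrt Real.pi * Real.exp (-κ ^ 2 / 4) := by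
    refine (norm_integral_le_integral_norm _).trans ?_
    simp only [bt_int_norm]
    have := tail_Ioi hq (t := t) (a := 2 * T) (by linarith)
    rw [sqrt_pi_quarter] at this
    refine this.trans ?_
    have e : 2 * Real.sqrt Real.pi / 2 = Real.sqrt Real.pi := by ring
    rw [e]
    apply mul_le_mul_of_nonneg_left _ hs.le
    apply Real.exp_le_exp.2
    nlinarith
  rw [hJ, full_val]
  have e3 : ∀ x y z : ℂ, x - y - z - x = -(y + z) := fun x y z => by ring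
  rw [e3, norm_neg]
  refine (norm_add_le _ _).trans ?_
  linarith

theorem sqrt_2pi_ge : 1 ≤ Real.sqrt (2 * Real.pi) := by
  rw [Real.one_le_sqrt]
  linarith [Real.pi_gt_three]

theorem bt_near (T u t ℓ κ : ℝ) (hκ : 0 ≤ κ) (h1 : T + κ ≤ t) (h2 : t ≤ 2 * T - κ) :
    ‖bt T u t ℓ - ((1 / Real.sqrt (2 * Real.pi) * Real.exp (-(u - ℓ) ^ 2 / 2) : ℝ) : ℂ) *
      ee (t * (u - ℓ))‖ ≤ Real.exp (-κ ^ 2 / 4) := by
  have hs := sqrt_pi_pos
  have h3 := JJ_near T u t ℓ κ hκ h1 h2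
  have h4 : bt T u t ℓ - ((1 / Real.sqrt (2 * Real.pi) * Real.exp (-(u - ℓ) ^ 2 / 2) : ℝ) : ℂ) *
      ee (t * (u - ℓ)) = ((1 / (2 * Real.sqrt Real.pi) * (1 / Real.sqrt (2 * Real.pi)) *
      Real.exp (-(u - ℓ) ^ 2 / 4) : ℝ) : ℂ) * (JJ T u t ℓ -
        ((2 * Real.sqrt Real.pi * Real.exp (-(u - ℓ) ^ 2 / 4) : ℝ) : ℂ) * ee (t * (u - ℓ))) := by
    have e : Real.exp (-(u - ℓ) ^ 2 / 2) = Real.exp (-(u - ℓ) ^ 2 / 4) *
        Real.exp (-(u - ℓ) ^ 2 / 4) := by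
      rw [← Real.exp_add]
      congr 1
      ring
    have e2 : ((1 / Real.sqrt (2 * Real.pi) * Real.exp (-(u - ℓ) ^ 2 / 2) : ℝ) : ℂ) =
        ((1 / (2 * Real.sqrt Real.pi) * (1 / Real.sqrt (2 * Real.pi)) *
          Real.exp (-(u - ℓ) ^ 2 / 4) : ℝ) : ℂ) *
        ((2 * Real.sqrt Real.pi * Real.exp (-(u - ℓ) ^ 2 / 4) : ℝ) : ℂ) := by
      rw [← Complex.ofReal_mul]
      congr 1
      rw [e]
      field_simp
    rw [bt_eq, e2]
    ring
  rw [h4, norm_mul, Complex.norm_real, Real.norm_of_nonneg (by positivity)]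
  have h5 : Real.exp (-(u - ℓ) ^ 2 / 4) ≤ 1 := by
    apply Real.exp_le_one_iff.2
    have := sq_nonneg (u - ℓ)
    linarith
  have h6 : 1 / Real.sqrt (2 * Real.pi) ≤ 1 := by
    rw [div_le_one (by positivity)]
    exact sqrt_2pi_ge
  calc 1 / (2 * Real.sqrt Real.pi) * (1 / Real.sqrt (2 * Real.pi)) *
      Real.exp (-(u - ℓ) ^ 2 / 4) * ‖_‖ ≤
      1 / (2 * Real.sqrt Real.pi) * (1 / Real.sqrt (2 * Real.pi)) *
      Real.exp (-(u - ℓ) ^ 2 / 4) * (2 * Real.sqrt Real.pi * Real.exp (-κ ^ 2 / 4)) :=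
        mul_le_mul_of_nonneg_left h3 (by positivity)
    _ = (1 / Real.sqrt (2 * Real.pi)) * Real.exp (-(u - ℓ) ^ 2 / 4) * Real.exp (-κ ^ 2 / 4) := by
        field_simp
    _ ≤ 1 * 1 * Real.exp (-κ ^ 2 / 4) := by gcongr
    _ = _ := by ring

theorem bt_le_wt (T u t ℓ : ℝ) (hT : 0 ≤ T) : ‖bt T u t ℓ‖ ≤ wt T t := by
  refine (bt_norm T u t ℓ hT).trans ?_
  have h0 := wt_nonneg T t hT
  have h5 : Real.exp (-(u - ℓ) ^ 2 / 4) ≤ 1 := by
    apply Real.exp_le_one_iff.2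
    have := sq_nonneg (u - ℓ)
    linarith
  have h6 : 1 / Real.sqrt (2 * Real.pi) ≤ 1 := by
    rw [div_le_one (by positivity)]
    exact sqrt_2pi_ge
  calc _ ≤ 1 * 1 * wt T t := by gcongr
    _ = _ := by ring

theorem wt_left (T t : ℝ) (hT : 0 ≤ T) (h : t ≤ T) :
    wt T t ≤ Real.exp (-(1 / 4) * (t - T) ^ 2) := by
  have hs := sqrt_pi_pos
  rw [wt_eq]
  have h1 := interval_le_Ioi (int_gauss_shift hq t) (fun τ => (Real.exp_pos _).le)
    (a := T) (b := 2 * T) (by linarith)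
  have h2 := tail_Ioi hq (t := t) (a := T) h
  rw [sqrt_pi_quarter] at h2
  have h3 : Real.exp (-(1 / 4) * (T - t) ^ 2) = Real.exp (-(1 / 4) * (t - T) ^ 2) := by
    congr 1; ring
  rw [h3] at h2
  calc _ ≤ 1 / (2 * Real.sqrt Real.pi) * (2 * Real.sqrt Real.pi / 2 *
        Real.exp (-(1 / 4) * (t - T) ^ 2)) :=
        mul_le_mul_of_nonneg_left (h1.trans h2) (by positivity)
    _ = 1 / 2 * Real.exp (-(1 / 4) * (t - T) ^ 2) := by field_simp
    _ ≤ _ := by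
        have := Real.exp_pos (-(1 / 4) * (t - T) ^ 2)
        linarith

theorem wt_right (T t : ℝ) (hT : 0 ≤ T) (h : 2 * T ≤ t) :
    wt T t ≤ Real.exp (-(1 / 4) * (t - 2 * T) ^ 2) := by
  have hs := sqrt_pi_pos
  rw [wt_eq]
  have h1 := interval_le_Iic (int_gauss_shift hq t) (fun τ => (Real.exp_pos _).le)
    (a := T) (b := 2 * T) (by linarith)
  have h2 := tail_Iic hq (t := t) (a := 2 * T) h
  rw [sqrt_pi_quarter] at h2
  have h3 : Real.exp (-(1 / 4) * (2 * T - t) ^ 2) = Real.exp (-(1 / 4) * (t - 2 * T) ^ 2) := by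
    congr 1; ring
  rw [h3] at h2
  calc _ ≤ 1 / (2 * Real.sqrt Real.pi) * (2 * Real.sqrt Real.pi / 2 *
        Real.exp (-(1 / 4) * (t - 2 * T) ^ 2)) :=
        mul_le_mul_of_nonneg_left (h1.trans h2) (by positivity)
    _ = 1 / 2 * Real.exp (-(1 / 4) * (t - 2 * T) ^ 2) := by field_simp
    _ ≤ _ := by
        have := Real.exp_pos (-(1 / 4) * (t - 2 * T) ^ 2)
        linarith

theorem sqrt_half : Real.sqrt (Real.pi / (1 / 2)) / 2 ≤ 2 := by
  have h : Real.sqrt (Real.pi / (1 / 2)) ≤ 4 := by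
    rw [Real.sqrt_le_left (by norm_num)]
    have := Real.pi_lt_four
    linarith
  linarith

theorem wt_Iic (T κ : ℝ) (hT : 0 ≤ T) (hκ : 0 ≤ κ) :
    ∫ t in Iic (T - κ), wt T t ^ 2 ≤ 2 * Real.exp (-κ ^ 2 / 2) := by
  obtain ⟨C, hC, h⟩ := wt_sq_int
  have h1 : ∫ t in Iic (T - κ), wt T t ^ 2 ≤
      ∫ t in Iic (T - κ), Real.exp (-(1 / 2) * (t - T) ^ 2) := by
    apply setIntegral_mono_on (h T hT).1.integrableOn
      (int_gauss_shift (by norm_num : (0:ℝ) < 1 / 2) T).integrableOn measurableSet_Iic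
    intro t ht
    have ht' : t ≤ T := by
      have : t ≤ T - κ := ht
      linarith
    have h2 := wt_left T t hT ht'
    have h3 := pow_le_pow_left₀ (wt_nonneg T t hT) h2 2
    refine h3.trans (le_of_eq ?_)
    rw [← Real.exp_nat_mul]
    congr 1
    push_cast
    ring
  refine h1.trans ?_
  have h4 := tail_Iic (by norm_num : (0:ℝ) < 1 / 2) (t := T) (a := T - κ) (by linarith)
  refine h4.trans ?_
  have e : -(1 / 2) * (T - κ - T) ^ 2 = -κ ^ 2 / 2 := by ring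
  rw [e]
  exact mul_le_mul_of_nonneg_right sqrt_half (Real.exp_pos _).le

theorem wt_Ioi (T κ : ℝ) (hT : 0 ≤ T) (hκ : 0 ≤ κ) :
    ∫ t in Ioi (2 * T + κ), wt T t ^ 2 ≤ 2 * Real.exp (-κ ^ 2 / 2) := by
  obtain ⟨C, hC, h⟩ := wt_sq_int
  have h1 : ∫ t in Ioi (2 * T + κ), wt T t ^ 2 ≤
      ∫ t in Ioi (2 * T + κ), Real.exp (-(1 / 2) * (t - 2 * T) ^ 2) := by
    apply setIntegral_mono_on (h T hT).1.integrableOn
      (int_gauss_shift (by norm_num : (0:ℝ) < 1 / 2) (2 * T)).integrableOn measurableSet_Ioi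
    intro t ht
    have ht' : 2 * T ≤ t := by
      have : 2 * T + κ < t := ht
      linarith
    have h2 := wt_right T t hT ht'
    have h3 := pow_le_pow_left₀ (wt_nonneg T t hT) h2 2
    refine h3.trans (le_of_eq ?_)
    rw [← Real.exp_nat_mul]
    congr 1
    push_cast
    ring
  refine h1.trans ?_
  have h4 := tail_Ioi (by norm_num : (0:ℝ) < 1 / 2) (t := 2 * T) (a := 2 * T + κ) (by linarith)
  refine h4.trans ?_
  have e : -(1 / 2) * (2 * T + κ - 2 * T) ^ 2 = -κ ^ 2 / 2 := by ring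
  rw [e]
  exact mul_le_mul_of_nonneg_right sqrt_half (Real.exp_pos _).le

/-- Cauchy-Schwarz against the Gaussian weight -/
theorem cs_gauss (f : ℝ → ℝ) (hf : Continuous f) (M : ℝ) (hM : ∀ s, |f s| ≤ M) :
    (∫ s : ℝ, Real.exp (-s ^ 2) * f s) ^ 2 ≤
      Real.sqrt Real.pi * ∫ s : ℝ, Real.exp (-s ^ 2) * f s ^ 2 := by
  have hs := sqrt_pi_pos
  have hg : Integrable (fun s : ℝ => Real.exp (-s ^ 2)) := by
    have := integrable_exp_neg_mul_sq (by norm_num : (0:ℝ) < 1)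
    simpa using this
  have hgi : ∫ s : ℝ, Real.exp (-s ^ 2) = Real.sqrt Real.pi := by
    have := integral_gaussian 1
    simpa using this
  have h1 : Integrable (fun s : ℝ => Real.exp (-s ^ 2) * f s) :=
    hg.mul_bdd (c := M) hf.aestronglyMeasurable (Filter.Eventually.of_forall fun s => hM s)
  have h2 : Integrable (fun s : ℝ => Real.exp (-s ^ 2) * f s ^ 2) := by
    refine hg.mul_bdd (c := M ^ 2) (hf.pow 2).aestronglyMeasurable
      (Filter.Eventually.of_forall fun s => ?_)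
    rw [Real.norm_eq_abs, abs_of_nonneg (sq_nonneg _), ← sq_abs]
    exact pow_le_pow_left₀ (abs_nonneg _) (hM s) 2
  set A := ∫ s : ℝ, Real.exp (-s ^ 2) * f s with hA
  set B := ∫ s : ℝ, Real.exp (-s ^ 2) * f s ^ 2 with hB
  set S := Real.sqrt Real.pi with hS
  have h3 : 0 ≤ ∫ s : ℝ, Real.exp (-s ^ 2) * (f s - A / S) ^ 2 :=
    integral_nonneg fun s => by positivity
  have h4 : (fun s : ℝ => Real.exp (-s ^ 2) * (f s - A / S) ^ 2) = fun s =>
      Real.exp (-s ^ 2) * f s ^ 2 - (2 * (A / S)) * (Real.exp (-s ^ 2) * f s) +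
        (A / S) ^ 2 * Real.exp (-s ^ 2) := by
    funext s
    ring
  have k1 : Integrable (fun s : ℝ => (2 * (A / S)) * (Real.exp (-s ^ 2) * f s)) := h1.const_mul _
  have k2 : Integrable (fun s : ℝ => (A / S) ^ 2 * Real.exp (-s ^ 2)) := hg.const_mul _
  have k3 : Integrable (fun s : ℝ => Real.exp (-s ^ 2) * f s ^ 2 -
      (2 * (A / S)) * (Real.exp (-s ^ 2) * f s)) := h2.sub k1
  rw [h4, integral_add k3 k2, integral_sub h2 k1, integral_const_mul, integral_const_mul, hgi,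
    ← hA, ← hB] at h3
  have h5 : B - 2 * (A / S) * A + (A / S) ^ 2 * S = B - A ^ 2 / S := by
    field_simp
    ring
  rw [h5] at h3
  have h6 : A ^ 2 / S ≤ B := by linarith
  rw [div_le_iff₀ hs] at h6
  linarith

end Pool.Agent.W354.MS
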