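import Pool.Agent.W354.MS.Sep
import Pool.Agent.W354.MS.Near
import Pool.Agent.H385R5.HE5
import Pool.Agent.H385R5.HE7
import Pool.Agent.H385R2.FamLS
import Pool.Agent.W354.PK.ThetaK

set_option autoImplicit false

/-!
The large sieve for Gaussian integers and the weights of the prime sums.
-/

open Complex Filter Topology Set MeasureTheory

namespace Pool.Agent.W354.MS

open H385 hiding ee
open H385.Cut
open Pool.Agent.W354.LS
open Pool.Agent.H304R3.HK (tc LamK bb)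
open Pool.Agent.W354.PK (psik aK HCk)

/-- minus the logarithm of the norm -/
noncomputable def ll (a : ZI) : ℝ := -Real.log (nrm a)

theorem LSapp {N : ℕ} (hN : 1 ≤ N) {ε κ : ℝ} (hε : 0 < ε) (hε1 : ε ≤ 1 / 4) (hκ : 1 ≤ κ)
    (h1 : 10 * Real.sqrt N ≤ ε * κ) (J : ℕ) (h2 : κ ≤ ε * J) (w : ZI → ℂ) (t1 t2 : ℝ)
    (ht : t1 ≤ t2) :
    ∑ j ∈ Finset.range J, ∫ t in t1..t2, ‖SS (BX N) th ll w j t‖ ^ 2 ≤
      (1 + 16 * ε) * J * (t2 - t1 + 2 * κ) * (4 * ∑ a ∈ BX N, ‖w a‖ ^ 2) := by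
  have hN0 : (1 : ℝ) ≤ N := by exact_mod_cast hN
  have hsN : 1 ≤ Real.sqrt N := Real.one_le_sqrt.2 hN0
  obtain ⟨h, hh⟩ : ∃ h : ℝ, h = 1 / (5 * Real.sqrt N) := ⟨_, rfl⟩
  have hh0 : 0 < h := by rw [hh]; positivity
  have hh1 : h ≤ 1 / 2 := by
    rw [hh, div_le_div_iff₀ (by positivity) (by norm_num)]
    linarith
  have hκ0 : 0 < κ := by linarith
  obtain ⟨R, hRd⟩ : ∃ R : ℕ, R = ⌈κ⌉₊ := ⟨_, rfl⟩
  have hR1 : κ ≤ R := by rw [hRd]; exact Nat.le_ceil κ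
  have hR2 : (R : ℝ) < κ + 1 := by rw [hRd]; exact Nat.ceil_lt_add_one hκ0.le
  have hR : 1 ≤ R := by
    have : (1 : ℝ) ≤ R := by linarith
    exact_mod_cast this
  have hhκ : 2 / (h * κ) ≤ ε := by
    rw [hh, div_le_iff₀ (by positivity)]
    have : ε * (1 / (5 * Real.sqrt N) * κ) = ε * κ / (5 * Real.sqrt N) := by ring
    rw [this, le_div_iff₀ (by positivity)]
    linarith
  have hhR : 2 / (h * R) ≤ ε := by
    refine le_trans ?_ hhκ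
    apply div_le_div_of_nonneg_left (by norm_num) (by positivity)
    exact mul_le_mul_of_nonneg_left hR1 hh0.le
  have hhR2 : 2 ≤ h * R := by
    have h3 : 0 < h * R := by positivity
    rw [div_le_iff₀ h3] at hhR
    nlinarith
  have hls := LS_main (BX N) th ll w hh0 hh1 hh0 Dd 4
    (by
      intro a ha b hb hD
      rw [HE4.mem_BX] at ha hb
      exact sep hN hh a b ha hb hD)
    (fun a _ => Dd_card1 _ a) (fun b _ => Dd_card2 _ b) J R hR hhR2 κ t1 t2 hκ0 ht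
  set X := ∑ j ∈ Finset.range J, ∫ t in t1..t2, ‖SS (BX N) th ll w j t‖ ^ 2 with hX
  have hX0 : 0 ≤ X := Finset.sum_nonneg fun j _ =>
    intervalIntegral.integral_nonneg ht fun t _ => by positivity
  set B : ℝ := 4 * ∑ a ∈ BX N, ‖w a‖ ^ 2 with hB
  have hB0 : 0 ≤ B := by positivity
  have hB4 : ((4 : ℕ) : ℝ) * ∑ a ∈ BX N, ‖w a‖ ^ 2 = B := by rw [hB]; norm_num
  rw [hB4] at hls
  have hW : 0 ≤ t2 - t1 + 2 * κ := by linarith
  have e1 : (1 - ε) * ((1 - ε) * X) ≤ (1 - 2 / (h * R)) * ((1 - 2 / (h * κ)) * X) := by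
    apply mul_le_mul (by linarith) _ (by apply mul_nonneg (by linarith) hX0) (by linarith)
    exact mul_le_mul_of_nonneg_right (by linarith) hX0
  have e2 : ((J : ℝ) + 2 * R + 1) ≤ (1 + 5 * ε) * J := by linarith
  have e3 : ((J : ℝ) + 2 * R + 1) * (t2 - t1 + 2 * κ) * B ≤
      (1 + 5 * ε) * J * (t2 - t1 + 2 * κ) * B := by gcongr
  have e4 : (1 - ε) ^ 2 * X ≤ (1 + 5 * ε) * (J * (t2 - t1 + 2 * κ) * B) := by
    calc (1 - ε) ^ 2 * X = (1 - ε) * ((1 - ε) * X) := by ring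
      _ ≤ _ := e1.trans (hls.trans e3)
      _ = _ := by ring
  have hY : 0 ≤ J * (t2 - t1 + 2 * κ) * B := by positivity
  have e5 : 1 + 5 * ε ≤ (1 - ε) ^ 2 * (1 + 16 * ε) := by
    have : (1 - ε) ^ 2 * (1 + 16 * ε) - (1 + 5 * ε) = ε * (9 - 31 * ε + 16 * ε ^ 2) := by ring
    have h5 : 0 ≤ ε * (9 - 31 * ε + 16 * ε ^ 2) := by
      apply mul_nonneg hε.le
      nlinarith
    linarith
  have e6 : (1 - ε) ^ 2 * X ≤ (1 - ε) ^ 2 * ((1 + 16 * ε) * (J * (t2 - t1 + 2 * κ) * B)) := by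
    refine e4.trans ?_
    calc (1 + 5 * ε) * (J * (t2 - t1 + 2 * κ) * B) ≤
        ((1 - ε) ^ 2 * (1 + 16 * ε)) * (J * (t2 - t1 + 2 * κ) * B) :=
          mul_le_mul_of_nonneg_right e5 hY
      _ = _ := by ring
  have h7 : 0 < (1 - ε) ^ 2 := by
    have : 0 < 1 - ε := by linarith
    positivity
  have := le_of_mul_le_mul_left e6 h7
  calc X ≤ _ := this
    _ = _ := by ring

/-- the unweighted coefficients -/
noncomputable def cw (r : ℕ) (χ : ZI →* ℂ) (a : ZI) : ℂ := (LamK a : ℂ) * (χ a * uu a ^ r)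

theorem uu_le (a : ZI) : ‖uu a‖ ≤ 1 := by
  unfold uu
  rw [norm_div, Complex.norm_real, norm_norm]
  exact div_self_le_one _

theorem cw_norm {k : ℕ} {q : ZI} {χ : ZI →* ℂ} (H : HCk k q χ) (r : ℕ) (a : ZI) :
    ‖cw r χ a‖ ≤ LamK a := by
  unfold cw
  have h1 := Pool.Agent.W354.PK.TK.chi_le H a
  have h2 : ‖uu a ^ r‖ ≤ 1 := by
    rw [norm_pow]
    exact pow_le_one₀ (norm_nonneg _) (uu_le a)
  have h3 := HE5.LamK_nn a
  rw [norm_mul, norm_mul, Complex.norm_real, Real.norm_of_nonneg h3]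
  have h4 : ‖χ a‖ * ‖uu a ^ r‖ ≤ 1 := mul_le_one₀ h1 (norm_nonneg _) h2
  calc LamK a * (‖χ a‖ * ‖uu a ^ r‖) ≤ LamK a * 1 := mul_le_mul_of_nonneg_left h4 h3
    _ = _ := mul_one _

theorem psik_eq (r j : ℕ) (χ : ZI →* ℂ) {a : ZI} (ha : a ≠ 0) :
    psik (r + 4 * j) χ a = χ a * uu a ^ r * ee (2 * Real.pi * (j * th a)) := by
  rw [Pool.Agent.W354.PK.TK.psik_apply, if_neg ha]
  have h1 : (tc a / (‖tc a‖ : ℂ)) = uu a := rfl
  rw [h1, pow_add, pow_mul, uu_th ha]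
  have h2 : ee (2 * Real.pi * th a) ^ j = ee (2 * Real.pi * (j * th a)) := by
    unfold ee
    rw [← Complex.exp_nat_mul]
    congr 1
    push_cast
    ring
  rw [h2]
  ring

/-- the diagonal -/
theorem diag_le {k : ℕ} {q : ZI} {χ : ZI →* ℂ} (H : HCk k q χ) (r N : ℕ) (b : ℕ → ℝ) :
    4 * ∑ a ∈ BX N, ‖(1 / 4 : ℂ) * cw r χ a * ((b (nrm a) : ℝ) : ℂ)‖ ^ 2 ≤
      ∑ n ∈ Finset.Icc 1 N, lamK2 n * b n ^ 2 := by
  have h1 := HE4.group N (fun n => ((b n : ℝ) : ℂ))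
  have h2 : ∑ a ∈ BX N, ‖(1 / 4 : ℂ) * cw r χ a * ((b (nrm a) : ℝ) : ℂ)‖ ^ 2 ≤
      ∑ a ∈ BX N, 1 / 16 * (LamK a ^ 2 * ‖((b (nrm a) : ℝ) : ℂ)‖ ^ 2) := by
    refine Finset.sum_le_sum fun a _ => ?_
    rw [norm_mul, norm_mul, mul_pow, mul_pow]
    have e : ‖(1 / 4 : ℂ)‖ ^ 2 = 1 / 16 := by norm_num
    rw [e]
    have h3 : ‖cw r χ a‖ ^ 2 ≤ LamK a ^ 2 := pow_le_pow_left₀ (norm_nonneg _) (cw_norm H r a) 2
    have h4 : 0 ≤ ‖((b (nrm a) : ℝ) : ℂ)‖ ^ 2 := by positivity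
    nlinarith [mul_le_mul_of_nonneg_right h3 h4]
  rw [← Finset.mul_sum, h1] at h2
  have h5 : ∑ n ∈ Finset.Icc 1 N, lamK2 n * ‖((b n : ℝ) : ℂ)‖ ^ 2 =
      ∑ n ∈ Finset.Icc 1 N, lamK2 n * b n ^ 2 := by
    refine Finset.sum_congr rfl fun n _ => ?_
    rw [Complex.norm_real, Real.norm_eq_abs, sq_abs]
  rw [h5] at h2
  linarith

/-- crude bound of the total weight -/
theorem X_le (N : ℕ) : (1 / 4 : ℝ) * ∑ a ∈ BX N, LamK a ≤ 2 * (N : ℝ) ^ 2 := by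
  have h1 := HE5.sum_BX N (fun a => ((LamK a : ℝ) : ℂ))
  have h2 : ((1 / 4 : ℂ) * ∑ a ∈ BX N, ((LamK a : ℝ) : ℂ)) =
      (((1 / 4 : ℝ) * ∑ a ∈ BX N, LamK a : ℝ) : ℂ) := by
    push_cast
    rfl
  rw [h2] at h1
  have h3 : ‖(((1 / 4 : ℝ) * ∑ a ∈ BX N, LamK a : ℝ) : ℂ)‖ ≤
      ∑ n ∈ Finset.Icc 1 N, 2 * (N : ℝ) := by
    rw [h1]
    refine (norm_sum_le _ _).trans (Finset.sum_le_sum fun n hn => ?_)
    rw [Finset.mem_Icc] at hn
    have h4 := HE5.bb_le (fun a => ((LamK a : ℝ) : ℂ)) n 1 (by norm_num) (by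
      intro a _
      rw [Complex.norm_real, Real.norm_of_nonneg (HE5.LamK_nn a), mul_one])
    refine h4.trans ?_
    have h5 : ArithmeticFunction.vonMangoldt n ≤ Real.log n :=
      ArithmeticFunction.vonMangoldt_le_log
    have h6 : Real.log n ≤ n := by
      have h7 : (0 : ℝ) < n := by exact_mod_cast hn.1
      have := Real.log_le_sub_one_of_pos h7
      linarith
    have h7 : (n : ℝ) ≤ N := by exact_mod_cast hn.2
    linarith
  rw [Complex.norm_real] at h3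
  refine (Real.le_norm_self _).trans (h3.trans (le_of_eq ?_))
  rw [Finset.sum_const, Nat.card_Icc, nsmul_eq_mul]
  push_cast
  ring_nf

/-- weights of the main term -/
noncomputable def bM (u : ℝ) (n : ℕ) : ℝ :=
  (Real.sqrt n)⁻¹ * (1 / Real.sqrt (2 * Real.pi) * Real.exp (-(u - Real.log n) ^ 2 / 2))

/-- weights near the boundary -/
noncomputable def bP (u : ℝ) (n : ℕ) : ℝ :=
  (Real.sqrt n)⁻¹ * Real.exp (-(u - Real.log n) ^ 2 / 4)

theorem sum_bM (u : ℝ) (hu : 0 ≤ u) (N : ℕ) :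
    ∑ n ∈ Finset.Icc 1 N, lamK2 n * bM u n ^ 2 ≤ 1 / (2 * Real.pi) * SW cK u := by
  obtain ⟨C0, hC0, hS, hcK, hlam⟩ := selb_cK
  have h1 := SW_summable cK C0 hS u hu
  have h2 : ∑ n ∈ Finset.Icc 1 N, wc cK n * Real.exp (-(u - Real.log n) ^ 2) ≤ SW cK u := by
    unfold SW
    exact h1.sum_le_tsum _ fun n _ => mul_nonneg (wc_nonneg cK n) (Real.exp_pos _).le
  have h3 : ∑ n ∈ Finset.Icc 1 N, lamK2 n * bM u n ^ 2 = 1 / (2 * Real.pi) *
      ∑ n ∈ Finset.Icc 1 N, wc cK n * Real.exp (-(u - Real.log n) ^ 2) := by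
    rw [Finset.mul_sum]
    refine Finset.sum_congr rfl fun n _ => ?_
    unfold bM wc
    rw [hlam n, mul_pow, mul_pow, ← Real.exp_nat_mul, inv_pow, Real.sq_sqrt (Nat.cast_nonneg n),
      div_pow, Real.sq_sqrt (by positivity), one_pow]
    have e : ((2 : ℕ) : ℝ) * (-(u - Real.log n) ^ 2 / 2) = -(u - Real.log n) ^ 2 := by
      push_cast; ring
    rw [e]
    ring
  rw [h3]
  exact mul_le_mul_of_nonneg_left h2 (by positivity)

theorem sum_bP : ∃ C : ℝ, 0 < C ∧ ∀ (u : ℝ) (N : ℕ), 0 ≤ u →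
    ∑ n ∈ Finset.Icc 1 N, lamK2 n * bP u n ^ 2 ≤ C * (u + 1) := by
  obtain ⟨C0, hC0, hS, hcK, hlam⟩ := selb_cK
  obtain ⟨C, hC, h⟩ := SW_crude cK C0 hS
  refine ⟨C, hC, fun u N hu => ?_⟩
  obtain ⟨h1, h2⟩ := h u hu
  refine le_trans ?_ h2
  have h3 : ∑ n ∈ Finset.Icc 1 N, lamK2 n * bP u n ^ 2 =
      ∑ n ∈ Finset.Icc 1 N, wc cK n * Real.exp (-(u - Real.log n) ^ 2 / 2) := by
    refine Finset.sum_congr rfl fun n _ => ?_
    unfold bP wc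
    rw [hlam n, mul_pow, ← Real.exp_nat_mul, inv_pow, Real.sq_sqrt (Nat.cast_nonneg n)]
    have e : ((2 : ℕ) : ℝ) * (-(u - Real.log n) ^ 2 / 4) = -(u - Real.log n) ^ 2 / 2 := by
      push_cast; ring
    rw [e]
    ring
  rw [h3]
  exact h1.sum_le_tsum _ fun n _ => mul_nonneg (wc_nonneg cK n) (Real.exp_pos _).le

end Pool.Agent.W354.MS
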