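import Pool.Agent.H385R5.HE4
import Pool.Agent.H304R3.HK.Fin
import Pool.Agent.W354.PK.Defs
import Pool.Agent.W354.LS.Main

set_option autoImplicit false

/-!
Angles and norms of non-associated Gaussian integers are well separated.
-/

open MeasureTheory Filter Topology Set

namespace Pool.Agent.W354.MS

open H385 (ZI im1 BX nrm)
open Pool.Agent.H304R3.HK (tc tc_star_mul tc_ne_zero one_le_norm_tc)
open Pool.Agent.W354.LS

/-- direction of a Gaussian integer -/
noncomputable def uu (a : ZI) : ℂ := tc a / (‖tc a‖ : ℂ)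

theorem uu_norm {a : ZI} (ha : a ≠ 0) : ‖uu a‖ = 1 := by
  unfold uu
  rw [norm_div, Complex.norm_real, norm_norm, div_self (norm_ne_zero_iff.2 (tc_ne_zero ha))]

/-- angle of the fourth power, in turns -/
noncomputable def th (a : ZI) : ℝ := Complex.arg ((uu a) ^ 4) / (2 * Real.pi)

theorem uu_th {a : ZI} (ha : a ≠ 0) : (uu a) ^ 4 = ee (2 * Real.pi * th a) := by
  have h1 : ‖(uu a) ^ 4‖ = 1 := by rw [norm_pow, uu_norm ha, one_pow]
  have h2 := Complex.norm_mul_exp_arg_mul_I ((uu a) ^ 4)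
  rw [h1] at h2
  have h3 : 2 * Real.pi * th a = Complex.arg ((uu a) ^ 4) := by
    unfold th
    field_simp
  rw [Complex.ofReal_one, one_mul] at h2
  unfold ee
  rw [h3]
  exact h2.symm

/-- associated elements -/
def Dd (a b : ZI) : Prop := b ∈ (Finset.range 4).image (fun j => im1 ^ j * a)

instance : DecidableRel Dd := fun a b => by unfold Dd; infer_instance

theorem Dd_card1 (A : Finset ZI) (a : ZI) : (A.filter (fun b => Dd a b)).card ≤ 4 := by
  have h : A.filter (fun b => Dd a b) ⊆ (Finset.range 4).image (fun j => im1 ^ j * a) := by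
    intro b hb
    exact (Finset.mem_filter.1 hb).2
  refine (Finset.card_le_card h).trans ?_
  exact Finset.card_image_le.trans (by simp)

theorem im1_four : im1 ^ 4 = 1 := by decide

theorem Dd_card2 (A : Finset ZI) (b : ZI) : (A.filter (fun a => Dd a b)).card ≤ 4 := by
  have h : A.filter (fun a => Dd a b) ⊆ (Finset.range 4).image (fun j => im1 ^ (4 - j) * b) := by
    intro a ha
    have h1 := (Finset.mem_filter.1 ha).2
    unfold Dd at h1
    rw [Finset.mem_image] at h1 ⊢
    obtain ⟨j, hj, hb⟩ := h1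
    refine ⟨j, hj, ?_⟩
    rw [← hb, ← mul_assoc, ← pow_add]
    rw [Finset.mem_range] at hj
    have : 4 - j + j = 4 := by omega
    rw [this, im1_four, one_mul]
  refine (Finset.card_le_card h).trans ?_
  exact Finset.card_image_le.trans (by simp)

theorem nrm_real (a : ZI) : ((nrm a : ℕ) : ℝ) = ‖tc a‖ ^ 2 := by
  rw [tc_star_mul]
  have h : ((nrm a : ℕ) : ℤ) = a.norm := by
    unfold nrm
    rw [Int.natCast_natAbs, abs_of_nonneg (Pool.Agent.H304R3.HK.M4.norm_nn a)]
  rw [← h]
  push_cast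
  rfl

theorem ne_zero_of_nrm {a : ZI} (h : 1 ≤ nrm a) : a ≠ 0 := by
  rintro rfl
  simp [nrm] at h

theorem tc_sub (a b : ZI) : tc (a - b) = tc a - tc b := by
  simp only [tc, Zsqrtd.re_sub, Zsqrtd.im_sub]
  push_cast
  ring

theorem tc_pow_im1 (j : ℕ) (a : ZI) : tc (im1 ^ j * a) = Complex.I ^ j * tc a := by
  induction j with
  | zero => simp
  | succ j ih =>
    have e : im1 ^ (j + 1) * a = im1 * (im1 ^ j * a) := by ring
    rw [e, H385.HE4.tc_im1, ih]
    ring

theorem root_four {z : ℂ} (h : z ^ 4 = 1) : ∃ j ∈ Finset.range 4, Complex.I ^ j * z = 1 := by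
  have h1 : (z - 1) * ((z + 1) * ((z - Complex.I) * (z + Complex.I))) = 0 := by
    have := Complex.I_sq
    linear_combination h + (1 - z ^ 2) * this
  rcases mul_eq_zero.1 h1 with h2 | h2
  · exact ⟨0, by simp, by rw [pow_zero, one_mul]; linear_combination h2⟩
  rcases mul_eq_zero.1 h2 with h2 | h2
  · refine ⟨2, by simp, ?_⟩
    have hz : z = -1 := by linear_combination h2
    rw [hz, Complex.I_sq]
    ring
  rcases mul_eq_zero.1 h2 with h2 | h2
  · refine ⟨3, by simp, ?_⟩
    have hz : z = Complex.I := by linear_combination h2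
    rw [hz, ← pow_succ, Complex.I_pow_four]
  · refine ⟨1, by simp, ?_⟩
    have hz : z = -Complex.I := by linear_combination h2
    rw [hz, pow_one]
    have := Complex.I_sq
    linear_combination -this

/-- separation -/
theorem sep {N : ℕ} (hN : 1 ≤ N) {h : ℝ} (hh : h = 1 / (5 * Real.sqrt N)) (a b : ZI)
    (ha : 1 ≤ nrm a ∧ nrm a ≤ N) (hb : 1 ≤ nrm b ∧ nrm b ≤ N) (hD : ¬ Dd a b) :
    h ≤ ‖((th a - th b : ℝ) : AddCircle (1 : ℝ))‖ ∨
      2 * Real.pi * h ≤ |(-Real.log (nrm a)) - (-Real.log (nrm b))| := by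
  by_contra hcon
  push Not at hcon
  obtain ⟨h1, h2⟩ := hcon
  apply hD
  have hN0 : (1 : ℝ) ≤ N := by exact_mod_cast hN
  have hsN : 1 ≤ Real.sqrt N := Real.one_le_sqrt.2 hN0
  have hh0 : 0 < h := by rw [hh]; positivity
  have ha0 := ne_zero_of_nrm ha.1
  have hb0 := ne_zero_of_nrm hb.1
  have hA1 := one_le_norm_tc ha0
  have hB1 := one_le_norm_tc hb0
  have hpi := Real.pi_pos
  -- the angle
  rw [AddCircle.norm_eq] at h1
  simp only [inv_one, one_mul, mul_one] at h1
  obtain ⟨n, hn⟩ : ∃ n : ℤ, n = round (th a - th b) := ⟨_, rfl⟩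
  rw [← hn] at h1
  obtain ⟨η, hη⟩ : ∃ η : ℝ, η = 2 * Real.pi * (th a - th b - n) := ⟨_, rfl⟩
  have hηb : |η| < 2 * Real.pi * h := by
    rw [hη, abs_mul, abs_of_pos (by positivity : 0 < 2 * Real.pi)]
    exact mul_lt_mul_of_pos_left h1 (by positivity)
  have hper : ee (2 * Real.pi * th a) = ee (2 * Real.pi * th b) * ee η := by
    rw [← ee_add]
    unfold ee
    rw [Complex.exp_eq_exp_iff_exists_int]
    refine ⟨n, ?_⟩
    rw [hη]
    push_cast
    ring
  have h4 : (uu a) ^ 4 = (uu b * ee (η / 4)) ^ 4 := by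
    rw [uu_th ha0, hper, mul_pow, uu_th hb0]
    congr 1
    unfold ee
    rw [← Complex.exp_nat_mul]
    congr 1
    push_cast
    ring
  set v : ℂ := uu b * ee (η / 4) with hv
  have hvn : ‖v‖ = 1 := by rw [hv, norm_mul, uu_norm hb0, ee_norm, mul_one]
  have hv0 : v ≠ 0 := by
    intro h5
    rw [h5, norm_zero] at hvn
    exact zero_ne_one hvn
  have h5 : (uu a / v) ^ 4 = 1 := by
    rw [div_pow, h4, div_self (pow_ne_zero 4 hv0)]
  obtain ⟨j, hj, hj1⟩ := root_four h5
  have h6 : Complex.I ^ j * uu a = v := by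
    field_simp at hj1
    exact hj1
  -- the rotated element
  have h7 : tc (im1 ^ j * a) = (‖tc a‖ : ℂ) * v := by
    rw [tc_pow_im1, ← h6]
    unfold uu
    have : (‖tc a‖ : ℂ) ≠ 0 := by
      have := norm_ne_zero_iff.2 (tc_ne_zero ha0)
      exact_mod_cast this
    field_simp
  have h8 : tc b = (‖tc b‖ : ℂ) * uu b := by
    unfold uu
    have : (‖tc b‖ : ℂ) ≠ 0 := by
      have := norm_ne_zero_iff.2 (tc_ne_zero hb0)
      exact_mod_cast this
    field_simp
  have h9 : tc (im1 ^ j * a - b) = ((‖tc a‖ : ℂ) * (ee (η / 4) - 1) +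
      ((‖tc a‖ : ℂ) - (‖tc b‖ : ℂ))) * uu b := by
    rw [tc_sub, h7, hv]
    linear_combination (-1 : ℂ) * h8
  -- sizes
  have hAN : ‖tc a‖ ≤ Real.sqrt N := by
    apply Real.le_sqrt_of_sq_le
    rw [← nrm_real]
    exact_mod_cast ha.2
  have hBN : ‖tc b‖ ≤ Real.sqrt N := by
    apply Real.le_sqrt_of_sq_le
    rw [← nrm_real]
    exact_mod_cast hb.2
  have h10 : ‖ee (η / 4) - 1‖ ≤ |η| / 4 := by
    have := Real.norm_exp_I_mul_ofReal_sub_one_le (x := η / 4)
    unfold ee
    rw [mul_comm]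
    refine this.trans (le_of_eq ?_)
    rw [Real.norm_eq_abs, abs_div]
    norm_num
  -- the moduli
  have hlog : |Real.log ‖tc a‖ - Real.log ‖tc b‖| < Real.pi * h := by
    rw [nrm_real, nrm_real, Real.log_pow, Real.log_pow] at h2
    have e : -(((2 : ℕ) : ℝ) * Real.log ‖tc a‖) - -(((2 : ℕ) : ℝ) * Real.log ‖tc b‖) =
        -2 * (Real.log ‖tc a‖ - Real.log ‖tc b‖) := by push_cast; ring
    rw [e, abs_mul, abs_neg, abs_two] at h2
    linarith
  have hmod : ∀ x y : ℝ, 1 ≤ x → x ≤ Real.sqrt N → 1 ≤ y → y ≤ Real.sqrt N →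
      Real.log x - Real.log y < Real.pi * h → x - y ≤ Real.sqrt N * (Real.pi * h) := by
    intro x y hx hxN hy hyN hl
    have hx0 : 0 < x := by linarith
    have hy0 : 0 < y := by linarith
    have e1 : y / x = Real.exp (Real.log y - Real.log x) := by
      rw [← Real.log_div hy0.ne' hx0.ne', Real.exp_log (by positivity)]
    have e2 := Real.add_one_le_exp (Real.log y - Real.log x)
    rw [← e1] at e2
    have e3 : x * (Real.log y - Real.log x + 1) ≤ y := by
      have := mul_le_mul_of_nonneg_left e2 hx0.le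
      rwa [mul_div_cancel₀ _ hx0.ne'] at this
    rcases le_or_gt (Real.log x) (Real.log y) with hc | hc
    · have : x ≤ y := (Real.log_le_log_iff hx0 hy0).1 hc
      have : 0 ≤ Real.sqrt N * (Real.pi * h) := by positivity
      linarith
    · have e4 : x * (Real.log x - Real.log y) ≤ Real.sqrt N * (Real.pi * h) :=
        mul_le_mul hxN hl.le (by linarith) (by positivity)
      nlinarith
  have h11 : |‖tc a‖ - ‖tc b‖| ≤ Real.sqrt N * (Real.pi * h) := by
    rw [abs_lt] at hlog
    rw [abs_le]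
    constructor
    · have := hmod ‖tc b‖ ‖tc a‖ hB1 hBN hA1 hAN (by linarith [hlog.1])
      linarith
    · exact hmod ‖tc a‖ ‖tc b‖ hA1 hAN hB1 hBN (by linarith [hlog.2])
  have h12 : ‖tc (im1 ^ j * a - b)‖ < 1 := by
    rw [h9, norm_mul, uu_norm hb0, mul_one]
    refine lt_of_le_of_lt (norm_add_le _ _) ?_
    rw [norm_mul, Complex.norm_real, norm_norm, ← Complex.ofReal_sub, Complex.norm_real,
      Real.norm_eq_abs]
    have g1 : ‖tc a‖ * ‖ee (η / 4) - 1‖ ≤ Real.sqrt N * (2 * Real.pi * h / 4) := by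
      apply mul_le_mul hAN (h10.trans (by linarith)) (norm_nonneg _) (by positivity)
    have g2 : Real.sqrt N * h = 1 / 5 := by
      rw [hh]
      field_simp
    have g3 := Real.pi_lt_d2
    have g4 : Real.sqrt N * (2 * Real.pi * h / 4) = Real.pi / 2 * (Real.sqrt N * h) := by ring
    have g5 : Real.sqrt N * (Real.pi * h) = Real.pi * (Real.sqrt N * h) := by ring
    rw [g4, g2] at g1
    rw [g5, g2] at h11
    linarith
  have h13 : im1 ^ j * a - b = 0 := by
    by_contra hne
    have := one_le_norm_tc hne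
    linarith
  unfold Dd
  rw [Finset.mem_image]
  exact ⟨j, hj, by linear_combination h13⟩

end Pool.Agent.W354.MS
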