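import Pool.Agent.W354.MS.App

set_option autoImplicit false

/-!
The mean square of the short prime sum over `k = r + 4 j`, `j < J`, and `t ∈ ℝ`.
-/

open Complex Filter Topology Set MeasureTheory

namespace Pool.Agent.W354.MS

open H385 hiding ee ee_norm ee_add SS
open H385.Cut
open Pool.Agent.W354.LS
open Pool.Agent.H304R3.HK (tc LamK bb)
open Pool.Agent.W354.PK (psik aK HCk)

/-- the short prime sum -/
noncomputable def Sh (r : ℕ) (χ : ZI →* ℂ) (N : ℕ) (T u : ℝ) (j : ℕ) (t : ℝ) : ℂ :=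
  (1 / 4 : ℂ) * ∑ a ∈ BX N, (LamK a : ℂ) * psik (r + 4 * j) χ a * bn T u t (nrm a)

/-- main weights -/
noncomputable def wM (r : ℕ) (χ : ZI →* ℂ) (u : ℝ) (a : ZI) : ℂ :=
  (1 / 4 : ℂ) * cw r χ a * ((bM u (nrm a) : ℝ) : ℂ)

/-- boundary weights -/
noncomputable def wP (r : ℕ) (χ : ZI →* ℂ) (u : ℝ) (a : ZI) : ℂ :=
  (1 / 4 : ℂ) * cw r χ a * ((bP u (nrm a) : ℝ) : ℂ)

theorem Sh_eq (r : ℕ) (χ : ZI →* ℂ) (N : ℕ) (T u : ℝ) (j : ℕ) (t : ℝ) :
    Sh r χ N T u j t = ∑ a ∈ BX N, (1 / 4 : ℂ) * cw r χ a * ee (2 * Real.pi * (j * th a)) *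
      ((Real.sqrt (nrm a) : ℂ)⁻¹ * bt T u t (Real.log (nrm a))) := by
  unfold Sh
  rw [Finset.mul_sum]
  refine Finset.sum_congr rfl fun a ha => ?_
  rw [HE4.mem_BX] at ha
  rw [psik_eq r j χ (ne_zero_of_nrm ha.1)]
  unfold cw bn
  ring

theorem inv_sqrt_le {n : ℕ} (hn : 1 ≤ n) : (Real.sqrt n)⁻¹ ≤ 1 := by
  apply inv_le_one_of_one_le₀
  rw [Real.one_le_sqrt]
  exact_mod_cast hn

theorem Sh_cont (r : ℕ) (χ : ZI →* ℂ) (N : ℕ) (T u : ℝ) (j : ℕ) :
    Continuous (fun t => Sh r χ N T u j t) := by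
  unfold Sh bn
  have h : ∀ ℓ : ℝ, Continuous (fun t => bt T u t ℓ) := fun ℓ =>
    (bt_cont T ℓ).comp (by fun_prop : Continuous (fun t : ℝ => ((u, t) : ℝ × ℝ)))
  fun_prop

/-- far away -/
theorem Sh_far {k : ℕ} {q : ZI} {χ : ZI →* ℂ} (H : HCk k q χ) (r N : ℕ) (T u : ℝ) (hT : 0 ≤ T)
    (j : ℕ) (t : ℝ) : ‖Sh r χ N T u j t‖ ≤ 2 * (N : ℝ) ^ 2 * wt T t := by
  rw [Sh_eq]
  have hw := wt_nonneg T t hT
  have h1 : ∀ a ∈ BX N, ‖(1 / 4 : ℂ) * cw r χ a * ee (2 * Real.pi * (j * th a)) *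
      ((Real.sqrt (nrm a) : ℂ)⁻¹ * bt T u t (Real.log (nrm a)))‖ ≤ 1 / 4 * LamK a * wt T t := by
    intro a ha
    rw [HE4.mem_BX] at ha
    rw [norm_mul, norm_mul, norm_mul, norm_mul, norm_inv, ee_norm, Complex.norm_real,
      Real.norm_of_nonneg (Real.sqrt_nonneg _), mul_one]
    have e : ‖(1 / 4 : ℂ)‖ = 1 / 4 := by norm_num
    rw [e]
    have h2 := cw_norm H r a
    have h3 := inv_sqrt_le ha.1
    have h4 := bt_le_wt T u t (Real.log (nrm a)) hT
    have h5 : (Real.sqrt (nrm a))⁻¹ * ‖bt T u t (Real.log (nrm a))‖ ≤ 1 * wt T t :=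
      mul_le_mul h3 h4 (norm_nonneg _) zero_le_one
    rw [one_mul] at h5
    have h6 := HE5.LamK_nn a
    apply mul_le_mul _ h5 (by positivity) (by positivity)
    linarith
  refine (norm_sum_le _ _).trans ((Finset.sum_le_sum h1).trans ?_)
  rw [← Finset.sum_mul, ← Finset.mul_sum]
  exact mul_le_mul_of_nonneg_right (X_le N) hw

/-- in the middle -/
theorem Sh_near {k : ℕ} {q : ZI} {χ : ZI →* ℂ} (H : HCk k q χ) (r N : ℕ) (T u κ : ℝ) (hκ : 0 ≤ κ)
    (j : ℕ) (t : ℝ) (h1 : T + κ ≤ t) (h2 : t ≤ 2 * T - κ) :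
    ‖Sh r χ N T u j t - ee (t * u) * SS (BX N) th ll (wM r χ u) j t‖ ≤
      2 * (N : ℝ) ^ 2 * Real.exp (-κ ^ 2 / 4) := by
  rw [Sh_eq]
  unfold SS
  rw [Finset.mul_sum, ← Finset.sum_sub_distrib]
  have h3 : ∀ a ∈ BX N, ‖(1 / 4 : ℂ) * cw r χ a * ee (2 * Real.pi * (j * th a)) *
      ((Real.sqrt (nrm a) : ℂ)⁻¹ * bt T u t (Real.log (nrm a))) -
      ee (t * u) * (wM r χ u a * (ee (2 * Real.pi * (j * th a)) * ee (ll a * t)))‖ ≤
      1 / 4 * LamK a * Real.exp (-κ ^ 2 / 4) := by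
    intro a ha
    rw [HE4.mem_BX] at ha
    have e1 : ee (t * (u - Real.log (nrm a))) = ee (t * u) * ee (ll a * t) := by
      rw [← ee_add]
      congr 1
      unfold ll
      ring
    have e2 : (1 / 4 : ℂ) * cw r χ a * ee (2 * Real.pi * (j * th a)) *
      ((Real.sqrt (nrm a) : ℂ)⁻¹ * bt T u t (Real.log (nrm a))) -
      ee (t * u) * (wM r χ u a * (ee (2 * Real.pi * (j * th a)) * ee (ll a * t))) =
      ((1 / 4 : ℂ) * cw r χ a * ee (2 * Real.pi * (j * th a)) * (Real.sqrt (nrm a) : ℂ)⁻¹) *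
        (bt T u t (Real.log (nrm a)) - ((1 / Real.sqrt (2 * Real.pi) *
          Real.exp (-(u - Real.log (nrm a)) ^ 2 / 2) : ℝ) : ℂ) *
            ee (t * (u - Real.log (nrm a)))) := by
      rw [e1]
      unfold wM bM
      push_cast
      ring
    rw [e2, norm_mul, norm_mul, norm_mul, norm_mul, norm_inv, ee_norm, Complex.norm_real,
      Real.norm_of_nonneg (Real.sqrt_nonneg _), mul_one]
    have e : ‖(1 / 4 : ℂ)‖ = 1 / 4 := by norm_num
    rw [e]
    have h4 := cw_norm H r a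
    have h5 := inv_sqrt_le ha.1
    have h6 := bt_near T u t (Real.log (nrm a)) κ hκ h1 h2
    have h7 := HE5.LamK_nn a
    have h8 : 1 / 4 * ‖cw r χ a‖ * (Real.sqrt (nrm a))⁻¹ ≤ 1 / 4 * LamK a := by
      calc 1 / 4 * ‖cw r χ a‖ * (Real.sqrt (nrm a))⁻¹ ≤ 1 / 4 * LamK a * 1 := by
            apply mul_le_mul _ h5 (by positivity) (by positivity)
            linarith
        _ = _ := mul_one _
    exact mul_le_mul h8 h6 (norm_nonneg _) (by positivity)
  refine (norm_sum_le _ _).trans ((Finset.sum_le_sum h3).trans ?_)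
  rw [← Finset.sum_mul, ← Finset.mul_sum]
  exact mul_le_mul_of_nonneg_right (X_le N) (Real.exp_pos _).le

/-- change of variables -/
theorem subst_two (f : ℝ → ℝ) (t : ℝ) : ∫ τ : ℝ, f τ = 2 * ∫ s : ℝ, f (t + 2 * s) := by
  have h1 := MeasureTheory.Measure.integral_comp_mul_left (fun x => f (t + x)) 2
  have h2 := MeasureTheory.integral_add_left_eq_self (μ := volume) f t
  rw [h1, abs_of_pos (by norm_num : (0 : ℝ) < 2⁻¹), h2, smul_eq_mul]
  ring

/-- everywhere -/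
theorem Sh_zone {k : ℕ} {q : ZI} {χ : ZI →* ℂ} (H : HCk k q χ) (r N : ℕ) (T u : ℝ) (hT : 0 ≤ T)
    (j : ℕ) (t : ℝ) : ‖Sh r χ N T u j t‖ ^ 2 ≤ 1 / (2 * Real.pi * Real.sqrt Real.pi) *
      ∫ s : ℝ, Real.exp (-s ^ 2) * ‖SS (BX N) th ll (wP r χ u) j (t + s)‖ ^ 2 := by
  have hsp := sqrt_pi_pos
  have hs2 := sqrt_2pi_pos
  have hpi := Real.pi_pos
  obtain ⟨c0, hc0⟩ : ∃ c : ℝ, c = 1 / (2 * Real.sqrt Real.pi) * (1 / Real.sqrt (2 * Real.pi)) :=
    ⟨_, rfl⟩
  have hc0p : 0 < c0 := by rw [hc0]; positivity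
  -- exact formula
  have h1 : Sh r χ N T u j t = ∫ τ in T..(2 * T), ((c0 * Real.exp (-(t - τ) ^ 2 / 4) : ℝ) : ℂ) *
      (ee ((t + τ) / 2 * u) * SS (BX N) th ll (wP r χ u) j ((t + τ) / 2)) := by
    rw [Sh_eq]
    have h2 : ∀ a ∈ BX N, (1 / 4 : ℂ) * cw r χ a * ee (2 * Real.pi * (j * th a)) *
      ((Real.sqrt (nrm a) : ℂ)⁻¹ * bt T u t (Real.log (nrm a))) =
        ∫ τ in T..(2 * T), ((c0 * Real.exp (-(t - τ) ^ 2 / 4) : ℝ) : ℂ) *
        (ee ((t + τ) / 2 * u) * (wP r χ u a * (ee (2 * Real.pi * (j * th a)) *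
          ee (ll a * ((t + τ) / 2))))) := by
      intro a _
      unfold bt
      rw [← mul_assoc, ← mul_assoc, ← intervalIntegral.integral_const_mul]
      apply intervalIntegral.integral_congr
      intro τ _
      simp only
      have e1 : cexp (I * ((t + τ) / 2) * (u - Real.log (nrm a))) =
          ee ((t + τ) / 2 * u) * ee (ll a * ((t + τ) / 2)) := by
        rw [← ee_add]
        unfold ee ll
        congr 1
        push_cast
        ring
      have e2 : ((1 / (2 * Real.sqrt Real.pi) * (1 / Real.sqrt (2 * Real.pi)) *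
          Real.exp (-(u - Real.log (nrm a)) ^ 2 / 4) : ℝ) : ℂ) =
          (c0 : ℂ) * ((Real.exp (-(u - Real.log (nrm a)) ^ 2 / 4) : ℝ) : ℂ) := by
        rw [hc0]
        push_cast
        ring
      rw [e1, e2]
      unfold wP bP
      push_cast
      ring
    rw [Finset.sum_congr rfl h2, ← intervalIntegral.integral_finsetSum]
    · apply intervalIntegral.integral_congr
      intro τ _
      simp only
      unfold SS
      rw [Finset.mul_sum, Finset.mul_sum]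
    · intro a _
      apply Continuous.intervalIntegrable
      have := ee_cont
      fun_prop
  set g : ℝ → ℝ := fun s => ‖SS (BX N) th ll (wP r χ u) j (t + s)‖ with hg
  have hgc : Continuous g := by
    rw [hg]
    exact ((SS_cont (BX N) th ll (wP r χ u) j).comp (by fun_prop)).norm
  obtain ⟨M, hM⟩ : ∃ M : ℝ, M = ∑ a ∈ BX N, ‖wP r χ u a‖ := ⟨_, rfl⟩
  have hgM : ∀ s, |g s| ≤ M := by
    intro s
    rw [abs_of_nonneg (norm_nonneg _), hM]
    exact SS_le (BX N) th ll (wP r χ u) j (t + s)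
  have h3 : ‖Sh r χ N T u j t‖ ≤ 2 * c0 * ∫ s : ℝ, Real.exp (-s ^ 2) * g s := by
    set F : ℝ → ℝ := fun τ => c0 * Real.exp (-(t - τ) ^ 2 / 4) *
      ‖SS (BX N) th ll (wP r χ u) j ((t + τ) / 2)‖ with hF
    have hFc : Continuous F := by
      have h5 := (SS_cont (BX N) th ll (wP r χ u) j).norm
      have h6 : Continuous (fun τ : ℝ => ‖SS (BX N) th ll (wP r χ u) j ((t + τ) / 2)‖) :=
        h5.comp (by fun_prop : Continuous (fun τ : ℝ => (t + τ) / 2))
      rw [hF]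
      exact (by fun_prop : Continuous (fun τ : ℝ => c0 * Real.exp (-(t - τ) ^ 2 / 4))).mul h6
    have hF0 : ∀ τ, 0 ≤ F τ := fun τ => by rw [hF]; positivity
    have hFi : Integrable F := by
      have h5 : Integrable (fun τ : ℝ => c0 * Real.exp (-(t - τ) ^ 2 / 4)) := by
        have := (int_gauss_shift hq t).const_mul c0
        refine this.congr (Filter.Eventually.of_forall fun τ => ?_)
        simp only
        congr 2
        ring
      refine h5.mul_bdd (c := M) ?_ (Filter.Eventually.of_forall fun τ => ?_)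
      · exact (((SS_cont (BX N) th ll (wP r χ u) j).norm).comp
          (by fun_prop : Continuous (fun τ : ℝ => (t + τ) / 2))).aestronglyMeasurable
      · rw [norm_norm, hM]
        exact SS_le (BX N) th ll (wP r χ u) j _
    have h4 : ‖Sh r χ N T u j t‖ ≤ ∫ τ in T..(2 * T), F τ := by
      rw [h1]
      refine (intervalIntegral.norm_integral_le_integral_norm (by linarith)).trans (le_of_eq ?_)
      apply intervalIntegral.integral_congr
      intro τ _
      simp only [hF]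
      rw [norm_mul, norm_mul, ee_norm, one_mul, Complex.norm_real, Real.norm_of_nonneg (by positivity)]
    refine h4.trans ((interval_le hFi hF0 (by linarith)).trans (le_of_eq ?_))
    rw [subst_two F t, ← integral_const_mul, ← integral_const_mul]
    congr 1
    funext s
    simp only [hF, hg]
    have e1 : -(t - (t + 2 * s)) ^ 2 / 4 = -s ^ 2 := by ring
    have e2 : (t + (t + 2 * s)) / 2 = t + s := by ring
    rw [e1, e2]
    ring
  have h5 : 0 ≤ ∫ s : ℝ, Real.exp (-s ^ 2) * g s :=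
    integral_nonneg fun s => mul_nonneg (Real.exp_pos _).le (norm_nonneg _)
  have h6 := cs_gauss g hgc M hgM
  have hsq : Real.sqrt Real.pi ^ 2 = Real.pi := Real.sq_sqrt hpi.le
  have hsq2 : Real.sqrt (2 * Real.pi) ^ 2 = 2 * Real.pi := Real.sq_sqrt (by positivity)
  calc ‖Sh r χ N T u j t‖ ^ 2 ≤ (2 * c0 * ∫ s : ℝ, Real.exp (-s ^ 2) * g s) ^ 2 :=
        pow_le_pow_left₀ (norm_nonneg _) h3 2
    _ = (2 * c0) ^ 2 * (∫ s : ℝ, Real.exp (-s ^ 2) * g s) ^ 2 := by ring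
    _ ≤ (2 * c0) ^ 2 * (Real.sqrt Real.pi * ∫ s : ℝ, Real.exp (-s ^ 2) * g s ^ 2) :=
        mul_le_mul_of_nonneg_left h6 (by positivity)
    _ = 1 / (2 * Real.pi * Real.sqrt Real.pi) * ∫ s : ℝ, Real.exp (-s ^ 2) * g s ^ 2 := by
        have e : (2 * c0) ^ 2 * Real.sqrt Real.pi = 1 / (2 * Real.pi * Real.sqrt Real.pi) := by
          rw [hc0]
          have e1 : (2 * (1 / (2 * Real.sqrt Real.pi) * (1 / Real.sqrt (2 * Real.pi)))) ^ 2 =
              1 / (Real.sqrt Real.pi ^ 2 * Real.sqrt (2 * Real.pi) ^ 2) := by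
            field_simp
          rw [e1, hsq2, hsq]
          have e2 : Real.pi * (2 * Real.pi) = 2 * Real.pi * Real.sqrt Real.pi * Real.sqrt Real.pi := by
            rw [mul_assoc (2 * Real.pi), ← sq, hsq]
            ring
          rw [e2]
          field_simp
        rw [← mul_assoc, e]

end Pool.Agent.W354.MS
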