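import Pool.Agent.W354.MS.Short

set_option autoImplicit false

/-!
The mean square of the short prime sum, total.
-/

open Complex Filter Topology Set MeasureTheory

namespace Pool.Agent.W354.MS

open H385 hiding ee ee_norm ee_add SS
open H385.Cut
open Pool.Agent.W354.LS
open Pool.Agent.H304R3.HK (tc LamK bb)
open Pool.Agent.W354.PK (psik aK HCk)

theorem gauss_int1 : Integrable (fun s : ℝ => Real.exp (-s ^ 2)) ∧
    ∫ s : ℝ, Real.exp (-s ^ 2) = Real.sqrt Real.pi := by
  constructor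
  · have := integrable_exp_neg_mul_sq (by norm_num : (0:ℝ) < 1)
    simpa using this
  · have := integral_gaussian 1
    simpa using this

/-- a Gaussian average of mean squares over an interval -/
theorem avg_swap (f : ℝ → ℝ) (hf : Continuous f) (M : ℝ) (hM : ∀ t, |f t| ≤ M) {a b : ℝ}
    (hab : a ≤ b) :
    (∫ t in a..b, ∫ s : ℝ, Real.exp (-s ^ 2) * f (t + s)) =
      ∫ s : ℝ, Real.exp (-s ^ 2) * ∫ t in (a + s)..(b + s), f t ∧
    Integrable (fun s : ℝ => Real.exp (-s ^ 2) * ∫ t in (a + s)..(b + s), f t) ∧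
    IntervalIntegrable (fun t : ℝ => ∫ s : ℝ, Real.exp (-s ^ 2) * f (t + s)) volume a b := by
  obtain ⟨g1, g2⟩ := gauss_int1
  have hM0 : 0 ≤ M := (abs_nonneg _).trans (hM 0)
  have hint : Integrable (Function.uncurry fun t s : ℝ => Real.exp (-s ^ 2) * f (t + s))
      ((volume.restrict (Ioc a b)).prod volume) := by
    have h1 : Integrable (fun z : ℝ × ℝ => M * Real.exp (-z.2 ^ 2))
        ((volume.restrict (Ioc a b)).prod volume) :=
      Integrable.mul_prod (integrable_const M) g1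
    refine h1.mono' ?_ (Filter.Eventually.of_forall fun z => ?_)
    · apply Continuous.aestronglyMeasurable
      unfold Function.uncurry
      fun_prop
    · unfold Function.uncurry
      rw [norm_mul, Real.norm_of_nonneg (Real.exp_pos _).le, mul_comm]
      exact mul_le_mul_of_nonneg_right (hM _) (Real.exp_pos _).le
  have e : ∀ s : ℝ, ∫ t in (a + s)..(b + s), f t = ∫ t in a..b, f (t + s) := by
    intro s
    rw [intervalIntegral.integral_comp_add_right]
  have e2 : (fun s : ℝ => Real.exp (-s ^ 2) * ∫ t in (a + s)..(b + s), f t) =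
      fun s : ℝ => ∫ t in Ioc a b, Real.exp (-s ^ 2) * f (t + s) := by
    funext s
    rw [e, intervalIntegral.integral_of_le hab, integral_const_mul]
  refine ⟨?_, ?_, ?_⟩
  · rw [e2, intervalIntegral.integral_of_le hab]
    exact integral_integral_swap hint
  · rw [e2]
    exact hint.swap.integral_prod_left
  · rw [intervalIntegrable_iff_integrableOn_Ioc_of_le hab]
    exact hint.integral_prod_left

/-- mean square over an interval, no smoothing -/
theorem zone_int : ∃ C : ℝ, 0 < C ∧ ∀ (k : ℕ) (q : ZI) (χ : ZI →* ℂ) (_ : HCk k q χ) (r N : ℕ)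
    (T u κ ε : ℝ) (J : ℕ), 1 ≤ N → 0 < ε → ε ≤ 1 / 4 → 1 ≤ κ → 10 * Real.sqrt N ≤ ε * κ →
    κ ≤ ε * J → 0 ≤ T → 0 ≤ u → ∀ a b : ℝ, a ≤ b →
    ∑ j ∈ Finset.range J, ∫ t in a..b, ‖Sh r χ N T u j t‖ ^ 2 ≤
      J * (C * (b - a + 2 * κ) * (u + 1)) := by
  obtain ⟨C, hC, hP⟩ := sum_bP
  refine ⟨C, hC, ?_⟩
  intro k q χ H r N T u κ ε J hN hε hε1 hκ h1 h2 hT hu a b hab
  have hpi := Real.pi_pos
  have hsp := sqrt_pi_pos
  obtain ⟨g1, g2⟩ := gauss_int1
  set w := wP r χ u with hw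
  obtain ⟨M, hM⟩ : ∃ M : ℝ, M = ∑ a ∈ BX N, ‖w a‖ := ⟨_, rfl⟩
  set f : ℕ → ℝ → ℝ := fun j t => ‖SS (BX N) th ll w j t‖ ^ 2 with hf
  have hfc : ∀ j, Continuous (f j) := fun j => (SS_cont (BX N) th ll w j).norm.pow 2
  have hfM : ∀ j t, |f j t| ≤ M ^ 2 := by
    intro j t
    rw [hf]
    simp only
    rw [abs_of_nonneg (by positivity), hM]
    exact pow_le_pow_left₀ (norm_nonneg _) (SS_le (BX N) th ll w j t) 2
  have hav := fun j => avg_swap (f j) (hfc j) (M ^ 2) (hfM j) hab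
  obtain ⟨B, hB⟩ : ∃ B : ℝ, B = (1 + 16 * ε) * J * (b - a + 2 * κ) * (4 * ∑ a ∈ BX N, ‖w a‖ ^ 2) :=
    ⟨_, rfl⟩
  have hls : ∀ s : ℝ, ∑ j ∈ Finset.range J, ∫ t in (a + s)..(b + s), f j t ≤ B := by
    intro s
    have := LSapp hN hε hε1 hκ h1 J h2 w (a + s) (b + s) (by linarith)
    have e : b + s - (a + s) = b - a := by ring
    rw [e] at this
    rw [hB]
    exact this
  have hd : 4 * ∑ a ∈ BX N, ‖w a‖ ^ 2 ≤ C * (u + 1) :=
    (diag_le H r N (bP u)).trans (hP u N hu)
  have hB2 : B ≤ 5 * J * (b - a + 2 * κ) * (C * (u + 1)) := by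
    rw [hB]
    have hL : 0 ≤ b - a + 2 * κ := by linarith
    gcongr
    linarith
  calc ∑ j ∈ Finset.range J, ∫ t in a..b, ‖Sh r χ N T u j t‖ ^ 2 ≤
      ∑ j ∈ Finset.range J, (1 / (2 * Real.pi * Real.sqrt Real.pi)) *
        ∫ t in a..b, ∫ s : ℝ, Real.exp (-s ^ 2) * f j (t + s) := by
        refine Finset.sum_le_sum fun j _ => ?_
        rw [← intervalIntegral.integral_const_mul]
        apply intervalIntegral.integral_mono_on hab
        · exact ((Sh_cont r χ N T u j).norm.pow 2).intervalIntegrable _ _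
        · exact (hav j).2.2.const_mul _
        · intro t _
          exact Sh_zone H r N T u hT j t
    _ = (1 / (2 * Real.pi * Real.sqrt Real.pi)) * ∫ s : ℝ, Real.exp (-s ^ 2) *
          ∑ j ∈ Finset.range J, ∫ t in (a + s)..(b + s), f j t := by
        rw [← Finset.mul_sum]
        congr 1
        simp only [Finset.mul_sum]
        rw [integral_finsetSum _ fun j _ => (hav j).2.1]
        exact Finset.sum_congr rfl fun j _ => (hav j).1
    _ ≤ (1 / (2 * Real.pi * Real.sqrt Real.pi)) * ∫ s : ℝ, Real.exp (-s ^ 2) * B := by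
        apply mul_le_mul_of_nonneg_left _ (by positivity)
        apply integral_mono
        · have : (fun s : ℝ => Real.exp (-s ^ 2) *
              ∑ j ∈ Finset.range J, ∫ t in (a + s)..(b + s), f j t) = fun s : ℝ =>
              ∑ j ∈ Finset.range J, Real.exp (-s ^ 2) * ∫ t in (a + s)..(b + s), f j t := by
            funext s
            rw [Finset.mul_sum]
          rw [this]
          exact integrable_finsetSum _ fun j _ => (hav j).2.1
        · exact g1.mul_const B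
        · intro s
          exact mul_le_mul_of_nonneg_left (hls s) (Real.exp_pos _).le
    _ = 1 / (2 * Real.pi) * B := by
        rw [integral_mul_const, g2]
        field_simp
    _ ≤ 1 / (2 * Real.pi) * (5 * J * (b - a + 2 * κ) * (C * (u + 1))) :=
        mul_le_mul_of_nonneg_left hB2 (by positivity)
    _ = (5 / (2 * Real.pi)) * (J * (C * (b - a + 2 * κ) * (u + 1))) := by ring
    _ ≤ 1 * (J * (C * (b - a + 2 * κ) * (u + 1))) := by
        apply mul_le_mul_of_nonneg_right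
        · rw [div_le_one (by positivity)]
          linarith [Real.pi_gt_three]
        · have hL : 0 ≤ b - a + 2 * κ := by linarith
          positivity
    _ = _ := one_mul _

theorem Sh_integrable {k : ℕ} {q : ZI} {χ : ZI →* ℂ} (H : HCk k q χ) (r N : ℕ) (T u : ℝ)
    (hT : 0 ≤ T) (j : ℕ) : Integrable (fun t => ‖Sh r χ N T u j t‖ ^ 2) := by
  obtain ⟨C, hC, h⟩ := wt_sq_int
  refine ((h T hT).1.const_mul ((2 * (N : ℝ) ^ 2) ^ 2)).mono'
    ((Sh_cont r χ N T u j).norm.pow 2).aestronglyMeasurable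
    (Filter.Eventually.of_forall fun t => ?_)
  rw [Real.norm_of_nonneg (by positivity), ← mul_pow]
  exact pow_le_pow_left₀ (norm_nonneg _) (Sh_far H r N T u hT j t) 2

/-- the mean square of the short sum -/
theorem short_total : ∃ C : ℝ, 0 < C ∧ ∀ (k : ℕ) (q : ZI) (χ : ZI →* ℂ) (_ : HCk k q χ) (r N : ℕ)
    (T u κ ε : ℝ) (J : ℕ), 1 ≤ N → 0 < ε → ε ≤ 1 / 4 → 1 ≤ κ → 10 * Real.sqrt N ≤ ε * κ →
    κ ≤ ε * J → 1 ≤ T → κ ≤ ε * T → 4 * (N : ℝ) ^ 4 * Real.exp (-κ ^ 2 / 2) ≤ ε ^ 2 → 0 ≤ u →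
    ∑ j ∈ Finset.range J, ∫ t : ℝ, ‖Sh r χ N T u j t‖ ^ 2 ≤
      J * (T / (2 * Real.pi) * SW cK u + C * (ε * T) * (u + 1)) := by
  obtain ⟨C1, hC1, hz⟩ := zone_int
  obtain ⟨C0, hC0, hS, hcK, hlam⟩ := selb_cK
  obtain ⟨C6, hC6, h6⟩ := SW_le cK C0 hS
  refine ⟨4 * C6 + 8 * C1 + 3, by positivity, ?_⟩
  intro k q χ H r N T u κ ε J hN hε hε1 hκ h1 h2 hT h3 h4 hu
  have hpi := Real.pi_pos
  have hT0 : 0 ≤ T := by linarith
  have hκ0 : 0 ≤ κ := by linarith
  have h2κ : 4 * κ ≤ T := by nlinarith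
  obtain ⟨D, hD⟩ : ∃ D : ℝ, D = (2 * (N : ℝ) ^ 2) ^ 2 * Real.exp (-κ ^ 2 / 2) := ⟨_, rfl⟩
  have hDε : D ≤ ε ^ 2 := by
    rw [hD]
    refine le_trans (le_of_eq ?_) h4
    ring
  have hD0 : 0 ≤ D := by rw [hD]; positivity
  set f : ℕ → ℝ → ℝ := fun j t => ‖Sh r χ N T u j t‖ ^ 2 with hf
  have hfc : ∀ j, Continuous (f j) := fun j => (Sh_cont r χ N T u j).norm.pow 2
  have hfi : ∀ j, Integrable (f j) := fun j => Sh_integrable H r N T u hT0 j
  have hfw : ∀ j t, f j t ≤ (2 * (N : ℝ) ^ 2) ^ 2 * wt T t ^ 2 := by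
    intro j t
    rw [← mul_pow]
    exact pow_le_pow_left₀ (norm_nonneg _) (Sh_far H r N T u hT0 j t) 2
  obtain ⟨Cw, hCw, hww⟩ := wt_sq_int
  have hwi := (hww T hT0).1
  -- outside
  have hL : ∀ j, ∫ t in Iic (T - κ), f j t ≤ 2 * D := by
    intro j
    calc ∫ t in Iic (T - κ), f j t ≤ ∫ t in Iic (T - κ), (2 * (N : ℝ) ^ 2) ^ 2 * wt T t ^ 2 :=
          setIntegral_mono (hfi j).integrableOn (hwi.const_mul _).integrableOn (hfw j)
      _ = (2 * (N : ℝ) ^ 2) ^ 2 * ∫ t in Iic (T - κ), wt T t ^ 2 := integral_const_mul _ _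
      _ ≤ (2 * (N : ℝ) ^ 2) ^ 2 * (2 * Real.exp (-κ ^ 2 / 2)) :=
          mul_le_mul_of_nonneg_left (wt_Iic T κ hT0 hκ0) (by positivity)
      _ = _ := by rw [hD]; ring
  have hRr : ∀ j, ∫ t in Ioi (2 * T + κ), f j t ≤ 2 * D := by
    intro j
    calc ∫ t in Ioi (2 * T + κ), f j t ≤
          ∫ t in Ioi (2 * T + κ), (2 * (N : ℝ) ^ 2) ^ 2 * wt T t ^ 2 :=
          setIntegral_mono (hfi j).integrableOn (hwi.const_mul _).integrableOn (hfw j)
      _ = (2 * (N : ℝ) ^ 2) ^ 2 * ∫ t in Ioi (2 * T + κ), wt T t ^ 2 := integral_const_mul _ _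
      _ ≤ (2 * (N : ℝ) ^ 2) ^ 2 * (2 * Real.exp (-κ ^ 2 / 2)) :=
          mul_le_mul_of_nonneg_left (wt_Ioi T κ hT0 hκ0) (by positivity)
      _ = _ := by rw [hD]; ring
  -- zones
  have hz1 := hz k q χ H r N T u κ ε J hN hε hε1 hκ h1 h2 hT0 hu (T - κ) (T + κ) (by linarith)
  have hz2 := hz k q χ H r N T u κ ε J hN hε hε1 hκ h1 h2 hT0 hu (2 * T - κ) (2 * T + κ)
    (by linarith)
  -- bulk
  have hb : ∑ j ∈ Finset.range J, ∫ t in (T + κ)..(2 * T - κ), f j t ≤
      J * ((1 + ε) * (1 + 16 * ε) * (T / (2 * Real.pi) * SW cK u) + (1 + 1 / ε) * D * T) := by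
    have hm : ∑ j ∈ Finset.range J, ∫ t in (T + κ)..(2 * T - κ),
        ‖SS (BX N) th ll (wM r χ u) j t‖ ^ 2 ≤
        (1 + 16 * ε) * J * T * (1 / (2 * Real.pi) * SW cK u) := by
      have g1 := LSapp hN hε hε1 hκ h1 J h2 (wM r χ u) (T + κ) (2 * T - κ) (by linarith)
      have e : 2 * T - κ - (T + κ) + 2 * κ = T := by ring
      rw [e] at g1
      have g2 : 4 * ∑ a ∈ BX N, ‖wM r χ u a‖ ^ 2 ≤ 1 / (2 * Real.pi) * SW cK u :=
        (diag_le H r N (bM u)).trans (sum_bM u hu N)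
      refine g1.trans ?_
      exact mul_le_mul_of_nonneg_left g2 (by positivity)
    have hpt : ∀ j, ∫ t in (T + κ)..(2 * T - κ), f j t ≤
        (1 + ε) * (∫ t in (T + κ)..(2 * T - κ), ‖SS (BX N) th ll (wM r χ u) j t‖ ^ 2) +
          (1 + 1 / ε) * D * T := by
      intro j
      have hSc := SS_cont (BX N) th ll (wM r χ u) j
      have g3 : ∫ t in (T + κ)..(2 * T - κ), f j t ≤ ∫ t in (T + κ)..(2 * T - κ),
          ((1 + ε) * ‖SS (BX N) th ll (wM r χ u) j t‖ ^ 2 + (1 + 1 / ε) * D) := by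
        apply intervalIntegral.integral_mono_on (by linarith)
        · exact (hfc j).intervalIntegrable _ _
        · apply Continuous.intervalIntegrable
          fun_prop
        · intro t ht
          have g4 := Sh_near H r N T u κ hκ0 j t ht.1 ht.2
          have g5 := FamLS.sq_add_le (LS.ee (t * u) * SS (BX N) th ll (wM r χ u) j t)
            (Sh r χ N T u j t - LS.ee (t * u) * SS (BX N) th ll (wM r χ u) j t) ε hε
          have e1 : LS.ee (t * u) * SS (BX N) th ll (wM r χ u) j t +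
            (Sh r χ N T u j t - LS.ee (t * u) * SS (BX N) th ll (wM r χ u) j t) =
              Sh r χ N T u j t := by ring
          rw [e1, norm_mul, LS.ee_norm, one_mul] at g5
          have g6 : ‖Sh r χ N T u j t - LS.ee (t * u) * SS (BX N) th ll (wM r χ u) j t‖ ^ 2 ≤
              D := by
            refine (pow_le_pow_left₀ (norm_nonneg _) g4 2).trans (le_of_eq ?_)
            rw [hD, mul_pow, ← Real.exp_nat_mul]
            congr 2
            push_cast
            ring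
          have g7 : 0 ≤ 1 + 1 / ε := by positivity
          exact g5.trans (add_le_add le_rfl (mul_le_mul_of_nonneg_left g6 g7))
      refine g3.trans ?_
      rw [intervalIntegral.integral_add, intervalIntegral.integral_const_mul,
        intervalIntegral.integral_const, smul_eq_mul]
      · have g7 : 0 ≤ (1 + 1 / ε) * D := by positivity
        have g8 : (2 * T - κ - (T + κ)) * ((1 + 1 / ε) * D) ≤ (1 + 1 / ε) * D * T := by
          rw [mul_comm]
          apply mul_le_mul_of_nonneg_left _ g7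
          linarith
        linarith
      · apply Continuous.intervalIntegrable
        fun_prop
      · exact continuous_const.intervalIntegrable _ _
    refine (Finset.sum_le_sum fun j _ => hpt j).trans ?_
    rw [Finset.sum_add_distrib, ← Finset.mul_sum, Finset.sum_const, Finset.card_range,
      nsmul_eq_mul]
    have g9 := mul_le_mul_of_nonneg_left hm (by positivity : 0 ≤ 1 + ε)
    calc _ ≤ (1 + ε) * ((1 + 16 * ε) * J * T * (1 / (2 * Real.pi) * SW cK u)) +
          J * ((1 + 1 / ε) * D * T) := by linarith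
      _ = _ := by ring
  -- splitting
  have hsplit : ∀ j, ∫ t : ℝ, f j t = (∫ t in Iic (T - κ), f j t) +
      ((∫ t in (T - κ)..(T + κ), f j t) + (∫ t in (T + κ)..(2 * T - κ), f j t) +
        (∫ t in (2 * T - κ)..(2 * T + κ), f j t)) + ∫ t in Ioi (2 * T + κ), f j t := by
    intro j
    have s1 := split3 (hfi j) (a := T - κ) (b := 2 * T + κ)
    have s2 := intervalIntegral.integral_add_adjacent_intervals (μ := volume)
      ((hfc j).intervalIntegrable (T - κ) (T + κ)) ((hfc j).intervalIntegrable (T + κ) (2 * T - κ))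
    have s3 := intervalIntegral.integral_add_adjacent_intervals (μ := volume)
      ((hfc j).intervalIntegrable (T - κ) (2 * T - κ))
      ((hfc j).intervalIntegrable (2 * T - κ) (2 * T + κ))
    linarith
  have htot : ∑ j ∈ Finset.range J, ∫ t : ℝ, f j t ≤ J * (2 * D) +
      (J * (C1 * (T + κ - (T - κ) + 2 * κ) * (u + 1)) +
        J * ((1 + ε) * (1 + 16 * ε) * (T / (2 * Real.pi) * SW cK u) + (1 + 1 / ε) * D * T) +
        J * (C1 * (2 * T + κ - (2 * T - κ) + 2 * κ) * (u + 1))) + J * (2 * D) := by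
    rw [Finset.sum_congr rfl fun j _ => hsplit j]
    simp only [Finset.sum_add_distrib]
    have t1 : ∑ j ∈ Finset.range J, ∫ t in Iic (T - κ), f j t ≤ J * (2 * D) := by
      refine (Finset.sum_le_sum fun j _ => hL j).trans (le_of_eq ?_)
      rw [Finset.sum_const, Finset.card_range, nsmul_eq_mul]
    have t2 : ∑ j ∈ Finset.range J, ∫ t in Ioi (2 * T + κ), f j t ≤ J * (2 * D) := by
      refine (Finset.sum_le_sum fun j _ => hRr j).trans (le_of_eq ?_)
      rw [Finset.sum_const, Finset.card_range, nsmul_eq_mul]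
    linarith
  refine htot.trans ?_
  have hJ0 : (0 : ℝ) ≤ J := by positivity
  obtain ⟨s0, s1⟩ := h6 u hu
  have hu1 : 1 ≤ u + 1 := by linarith
  have k1 : (1 + ε) * (1 + 16 * ε) * (T / (2 * Real.pi) * SW cK u) ≤
      T / (2 * Real.pi) * SW cK u + 4 * C6 * (ε * T) * (u + 1) := by
    have m1 : (1 + ε) * (1 + 16 * ε) ≤ 1 + 21 * ε := by nlinarith
    have m2 : 0 ≤ T / (2 * Real.pi) * SW cK u := by positivity
    have m3 : 21 * ε * (T / (2 * Real.pi) * SW cK u) ≤ 4 * C6 * (ε * T) * (u + 1) := by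
      calc 21 * ε * (T / (2 * Real.pi) * SW cK u) = (21 / (2 * Real.pi)) * (ε * T * SW cK u) := by
            ring
        _ ≤ 4 * (ε * T * (C6 * (u + 1))) := by
            apply mul_le_mul _ _ (by positivity) (by norm_num)
            · rw [div_le_iff₀ (by positivity)]
              linarith [Real.pi_gt_three]
            · exact mul_le_mul_of_nonneg_left s1 (by positivity)
        _ = _ := by ring
    calc _ ≤ (1 + 21 * ε) * (T / (2 * Real.pi) * SW cK u) := mul_le_mul_of_nonneg_right m1 m2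
      _ = T / (2 * Real.pi) * SW cK u + 21 * ε * (T / (2 * Real.pi) * SW cK u) := by ring
      _ ≤ _ := by linarith
  have k2 : (1 + 1 / ε) * D * T ≤ 2 * (ε * T) := by
    have m1 : (1 + 1 / ε) * D ≤ (1 + 1 / ε) * ε ^ 2 :=
      mul_le_mul_of_nonneg_left hDε (by positivity)
    have m2 : (1 + 1 / ε) * ε ^ 2 = ε ^ 2 + ε := by field_simp
    have m3 : ε ^ 2 + ε ≤ 2 * ε := by nlinarith
    calc (1 + 1 / ε) * D * T ≤ (2 * ε) * T := mul_le_mul_of_nonneg_right (by linarith) hT0
      _ = _ := by ring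
  have k3 : C1 * (T + κ - (T - κ) + 2 * κ) * (u + 1) ≤ 4 * C1 * (ε * T) * (u + 1) := by
    have m1 : T + κ - (T - κ) + 2 * κ = 4 * κ := by ring
    rw [m1]
    have : C1 * (4 * κ) ≤ 4 * C1 * (ε * T) := by nlinarith
    exact mul_le_mul_of_nonneg_right this (by linarith)
  have k4 : C1 * (2 * T + κ - (2 * T - κ) + 2 * κ) * (u + 1) ≤ 4 * C1 * (ε * T) * (u + 1) := by
    have m1 : 2 * T + κ - (2 * T - κ) + 2 * κ = 4 * κ := by ring
    rw [m1]
    have : C1 * (4 * κ) ≤ 4 * C1 * (ε * T) := by nlinarith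
    exact mul_le_mul_of_nonneg_right this (by linarith)
  have k5 : 2 * D + 2 * D ≤ ε * T := by
    have : 4 * ε ^ 2 ≤ ε * 1 := by nlinarith
    have : ε * 1 ≤ ε * T := mul_le_mul_of_nonneg_left hT hε.le
    linarith
  have k6 : ε * T ≤ ε * T * (u + 1) := le_mul_of_one_le_right (by positivity) hu1
  calc _ = J * ((2 * D + 2 * D) + C1 * (T + κ - (T - κ) + 2 * κ) * (u + 1) +
        C1 * (2 * T + κ - (2 * T - κ) + 2 * κ) * (u + 1) +
        (1 + ε) * (1 + 16 * ε) * (T / (2 * Real.pi) * SW cK u) + (1 + 1 / ε) * D * T) := by ring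
    _ ≤ J * (T / (2 * Real.pi) * SW cK u + (4 * C6 + 8 * C1 + 3) * (ε * T) * (u + 1)) := by
        apply mul_le_mul_of_nonneg_left _ hJ0
        have : (4 * C6 + 8 * C1 + 3) * (ε * T) * (u + 1) = 4 * C6 * (ε * T) * (u + 1) +
          4 * C1 * (ε * T) * (u + 1) + 4 * C1 * (ε * T) * (u + 1) + 3 * (ε * T * (u + 1)) := by ring
        rw [this]
        linarith

end Pool.Agent.W354.MS
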